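import Pool.Agent.H384R3.SPk.Defs

set_option autoImplicit false

namespace Pool.Agent.H384R3.SPk.C

open Finset

/-- the character -/
noncomputable def e (n : ℤ) (x : ℝ) : ℂ := Complex.exp (2 * Real.pi * Complex.I * n * x)

lemma e_add (m n : ℤ) (x : ℝ) : e (m + n) x = e m x * e n x := by
  unfold e
  rw [← Complex.exp_add]
  congr 1
  push_cast
  ring

lemma e_zero (x : ℝ) : e 0 x = 1 := by simp [e]

lemma e_sum {ι : Type*} (s : Finset ι) (a : ι → ℤ) (x : ℝ) :
    e (∑ i ∈ s, a i) x = ∏ i ∈ s, e (a i) x := by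
  classical
  induction s using Finset.induction_on with
  | empty => simp [e_zero]
  | insert i s hi ih => rw [sum_insert hi, prod_insert hi, e_add, ih]

lemma e_conj (n : ℤ) (x : ℝ) : (starRingEnd ℂ) (e n x) = e (-n) x := by
  unfold e
  rw [← Complex.exp_conj]
  congr 1
  simp
  left
  left
  exact map_ofNat _ 2

lemma e_cont (n : ℤ) : Continuous (e n) := by
  unfold e
  fun_prop

lemma ortho (n : ℤ) : ∫ x in (0:ℝ)..1, e n x = if n = 0 then 1 else 0 := by
  split_ifs with h
  · subst h
    simp [e_zero]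
  · unfold e
    have hc : (2 * Real.pi * Complex.I * n : ℂ) ≠ 0 := by
      have h1 : (n : ℂ) ≠ 0 := by exact_mod_cast h
      have h2 : (Real.pi : ℂ) ≠ 0 := by exact_mod_cast Real.pi_ne_zero
      simp [h1, h2]
    rw [integral_exp_mul_complex hc]
    have h3 : Complex.exp (2 * Real.pi * Complex.I * n * (1 : ℝ)) = 1 := by
      have := Complex.exp_int_mul_two_pi_mul_I n
      rw [← this]
      congr 1
      push_cast
      ring
    rw [h3]
    simp

/-- Parseval for finite sums -/
lemma parseval (S : Finset ℤ) (r : ℤ → ℝ) :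
    ∫ x in (0:ℝ)..1, ‖∑ s ∈ S, (r s : ℂ) * e s x‖ ^ 2 = ∑ s ∈ S, r s ^ 2 := by
  have h1 : ((∫ x in (0:ℝ)..1, ‖∑ s ∈ S, (r s : ℂ) * e s x‖ ^ 2 : ℝ) : ℂ) =
      ((∑ s ∈ S, r s ^ 2 : ℝ) : ℂ) := by
    rw [← intervalIntegral.integral_ofReal]
    have h2 : ∀ x : ℝ, ((‖∑ s ∈ S, (r s : ℂ) * e s x‖ ^ 2 : ℝ) : ℂ) =
        ∑ s ∈ S, ∑ t ∈ S, ((r s : ℂ) * r t) * e (s - t) x := by
      intro x
      push_cast
      rw [← Complex.mul_conj', map_sum, sum_mul_sum]
      refine sum_congr rfl fun s _ => sum_congr rfl fun t _ => ?_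
      rw [map_mul, e_conj, sub_eq_add_neg, e_add, Complex.conj_ofReal]
      ring
    simp_rw [h2]
    rw [intervalIntegral.integral_finsetSum]
    · push_cast
      refine sum_congr rfl fun s hs => ?_
      rw [intervalIntegral.integral_finsetSum]
      · have h3 : ∀ t ∈ S, (∫ x in (0:ℝ)..1, ((r s : ℂ) * r t) * e (s - t) x) =
            if t = s then (r s : ℂ) ^ 2 else 0 := by
          intro t _
          rw [intervalIntegral.integral_const_mul, ortho]
          by_cases h : t = s
          · subst h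
            simp [sq]
          · have : s - t ≠ 0 := fun h' => h (by omega)
            simp [h, this]
        rw [sum_congr rfl h3, sum_ite_eq' S s]
        simp [hs]
      · intro t _
        exact ((e_cont _).const_mul _ |>.intervalIntegrable _ _)
    · intro s _
      refine Continuous.intervalIntegrable ?_ _ _
      exact continuous_finsetSum _ fun t _ => (e_cont _).const_mul _
  exact_mod_cast h1

theorem taskC : TaskC := by
  classical
  intro k hk A f hA hf
  set T := Fintype.piFinset (fun _ : Fin k => A) with hT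
  set r : ℤ → ℝ := fun s => ∑ a ∈ T with ∑ i, a i = s, ∏ i, f (a i) with hr
  have hF : ∀ x, F f x = ∑ n ∈ A, (f n : ℂ) * e n x := by
    intro x
    unfold F
    rw [Finsupp.sum_of_support_subset f hA]
    · rfl
    · intro n _
      simp
  have hmaps : ∀ a ∈ T, (∑ i, a i) ∈ sumset k A := by
    intro a ha
    exact mem_image_of_mem _ ha
  have hsum : (∑ n ∈ A, f n) ^ k = ∑ s ∈ sumset k A, r s := by
    have h1 : (∑ n ∈ A, f n) ^ k = ∑ a ∈ T, ∏ i, f (a i) := by
      have := Finset.prod_univ_sum (fun _ : Fin k => A) (fun _ n => f n)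
      rw [← this]
      simp
    rw [h1, ← Finset.sum_fiberwise_of_maps_to hmaps]
  have hpow : ∀ x, (F f x) ^ k = ∑ s ∈ sumset k A, (r s : ℂ) * e s x := by
    intro x
    have h1 : (F f x) ^ k = ∑ a ∈ T, ∏ i, ((f (a i) : ℂ) * e (a i) x) := by
      have := Finset.prod_univ_sum (fun _ : Fin k => A) (fun _ n => (f n : ℂ) * e n x)
      rw [← this, hF]
      simp
    rw [h1, ← Finset.sum_fiberwise_of_maps_to hmaps]
    refine sum_congr rfl fun s _ => ?_
    rw [hr]
    push_cast
    rw [sum_mul]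
    refine sum_congr rfl fun a ha => ?_
    rw [prod_mul_distrib, ← e_sum, (mem_filter.1 ha).2]
  have hM : M k f = ∑ s ∈ sumset k A, r s ^ 2 := by
    unfold M
    rw [← parseval]
    congr 1
    ext x
    rw [← hpow, norm_pow, ← pow_mul, mul_comm]
  rw [hM, mul_comm 2 k, pow_mul, hsum]
  exact sq_sum_le_card_mul_sum_sq

end Pool.Agent.H384R3.SPk.C
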