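import Pool.Agent.H384R3.SPk.Final

set_option autoImplicit false

namespace Pool.Agent.H384R3.SPk

open Finset

/-- indicator of `A` as a finitely supported function -/
noncomputable def ind (A : Finset ℤ) : ℤ →₀ ℝ := ∑ a ∈ A, Finsupp.single a 1

/-- number of solutions of `x 1 + ... + x k = y 1 + ... + y k` in `A` -/
def energy (k : ℕ) (A : Finset ℤ) : ℕ :=
  (((Fintype.piFinset fun _ : Fin k => A) ×ˢ (Fintype.piFinset fun _ : Fin k => A)).filter
    fun p => ∑ i, p.1 i = ∑ i, p.2 i).card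

/-- Task J: bounded multiplicative rank. -/
def TaskJ : Prop := ∀ (k r : ℕ), 1 ≤ k → ∀ (g₀ : ℚ) (g : Fin r → ℚ), 0 < g₀ → (∀ i, 0 < g i) →
  ∀ A : Finset ℤ, (∀ a ∈ A, 0 < a) → (∀ a ∈ A, ∃ e : Fin r → ℤ, (a : ℚ) = g₀ * ∏ i, g i ^ e i) →
  N k (ind A) ≤ (2 * k - 1) ^ r * (A.card : ℝ)

/-- Task K: the energy formula. -/
def TaskK : Prop := ∀ (k : ℕ) (A : Finset ℤ), M k (ind A) = energy k A

end Pool.Agent.H384R3.SPk
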