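import Pool.Agent.H384R3.SPk.Func

set_option autoImplicit false

namespace Pool.Agent.H384R3.SPk

open Finset

/-- the potential -/
noncomputable def q (n : ℕ) (β a r : ℝ) : ℝ := (a ^ (1 + β) / r) ^ (1 / ((n : ℝ) * β))

theorem q_nonneg (n : ℕ) (β : ℝ) {a r : ℝ} (ha : 0 ≤ a) (hr : 0 ≤ r) : 0 ≤ q n β a r := by
  unfold q
  positivity

theorem q_pos (n : ℕ) (β : ℝ) {a r : ℝ} (ha : 0 < a) (hr : 0 < r) : 0 < q n β a r := by
  unfold q
  positivity

theorem q_pow (n : ℕ) (hn : 1 ≤ n) {β : ℝ} (hβ : 0 < β) {a r : ℝ} (ha : 0 < a) (hr : 0 < r) :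
    q n β a r ^ n = (a ^ (1 + β) / r) ^ (1 / β) := by
  have hn0 : (0:ℝ) < n := by exact_mod_cast hn
  unfold q
  rw [← Real.rpow_natCast, ← Real.rpow_mul (by positivity)]
  congr 1
  field_simp

theorem q_rpow (n : ℕ) (hn : 1 ≤ n) {β : ℝ} (hβ : 0 < β) {a r : ℝ} (ha : 0 < a) (hr : 0 < r) :
    q n β a r ^ ((n : ℝ) * β) = a ^ (1 + β) / r := by
  have hn0 : (0:ℝ) < n := by exact_mod_cast hn
  unfold q
  rw [← Real.rpow_mul (by positivity)]
  have : 1 / ((n:ℝ) * β) * (n * β) = 1 := by field_simp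
  rw [this, Real.rpow_one]

theorem os (hE : TaskE) {n : ℕ} (hn : 2 ≤ n) {c β : ℝ} (hc : 0 < c) (hc1 : c < 1) (hβ : 0 < β)
    (hcβ : ((n : ℝ) - (n - 1) * c) ^ β = 1 / c) {a₀ a' R₀ R' ρ : ℝ}
    (ha₀ : 0 < a₀) (ha' : 0 < a') (hR₀ : 0 < R₀) (hR' : 0 < R')
    (h1 : R₀ ≤ ρ) (h2 : R' + c * R₀ ≤ ρ) :
    q n β (a₀ + a') ρ ^ n ≤ q n β a₀ R₀ ^ n + q n β a' R' * q n β (a₀ + a') ρ ^ (n - 1) := by
  have hρ : 0 < ρ := lt_of_lt_of_le hR₀ h1
  have ha : 0 < a₀ + a' := by linarith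
  have hn1 : 1 ≤ n := by omega
  have hn0 : (0:ℝ) < n := by exact_mod_cast (show 0 < n by omega)
  set a := a₀ + a' with hadef
  set p := q n β a ρ with hp
  have hp0 : 0 < p := q_pos n β ha hρ
  set x := a₀ / a with hx
  have hx0 : 0 < x := by positivity
  have hx1 : 1 - x = a' / a := by rw [hx]; field_simp; rw [hadef]; ring
  have hx1' : 0 < 1 - x := by rw [hx1]; positivity
  set Q := R₀ / ρ with hQ
  have hQ0 : 0 < Q := by positivity
  have hQ1 : Q ≤ 1 := by rw [hQ, div_le_one hρ]; exact h1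
  set u := (x ^ (1 + β) / Q) ^ (1 / β) with hu
  have hu0 : 0 < u := by positivity
  have hp₀ : q n β a₀ R₀ ^ n = u * p ^ n := by
    rw [q_pow n hn1 hβ ha₀ hR₀, hp, q_pow n hn1 hβ ha hρ, hu, ← Real.mul_rpow (by positivity) (by positivity)]
    congr 1
    rw [hx, hQ, Real.div_rpow ha₀.le ha.le]
    field_simp
  set v := q n β a' R' / p with hv
  have hv0 : 0 < v := div_pos (q_pos n β ha' hR') hp0
  have hcQ : 0 < 1 - c * Q := by nlinarith
  have hvp : (1 - x) ^ (1 + β) / (1 - c * Q) ≤ v ^ ((n:ℝ) * β) := by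
    rw [hv, Real.div_rpow (q_nonneg n β ha'.le hR'.le) hp0.le, q_rpow n hn1 hβ ha' hR', hp,
      q_rpow n hn1 hβ ha hρ, hx1, Real.div_rpow ha'.le ha.le]
    have e : a' ^ (1 + β) / R' / (a ^ (1 + β) / ρ) = a' ^ (1 + β) / a ^ (1 + β) / (R' / ρ) := by
      field_simp
    rw [e]
    apply div_le_div_of_nonneg_left (by positivity) (by positivity)
    rw [div_le_iff₀ hρ, hQ]
    have : (1 - c * (R₀ / ρ)) * ρ = ρ - c * R₀ := by field_simp
    rw [this]
    linarith
  have key : 1 ≤ u + v := by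
    rcases le_or_gt 1 u with hu1 | hu1
    · linarith
    · have hK := hE n hn c β Q u hc hc1 hβ hcβ hQ0.le hQ1 hu0.le hu1.le
      have hxu : (Q * u ^ β) ^ (1 / (1 + β)) = x := by
        rw [hu, ← Real.rpow_mul (by positivity)]
        have : 1 / β * β = 1 := by field_simp
        rw [this, Real.rpow_one]
        have : Q * (x ^ (1 + β) / Q) = x ^ (1 + β) := by field_simp
        rw [this, ← Real.rpow_mul hx0.le]
        have : (1 + β) * (1 / (1 + β)) = 1 := by field_simp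
        rw [this, Real.rpow_one]
      rw [hxu] at hK
      have h3 : (1 - u) ^ ((n:ℝ) * β) ≤ (1 - x) ^ (1 + β) / (1 - c * Q) := by
        rw [le_div_iff₀ hcQ]; linarith
      have h4 : (1 - u) ^ ((n:ℝ) * β) ≤ v ^ ((n:ℝ) * β) := h3.trans hvp
      have h5 : 1 - u ≤ v := by
        by_contra hcon
        push Not at hcon
        have := Real.rpow_lt_rpow hv0.le hcon (show 0 < (n:ℝ) * β by positivity)
        linarith
      linarith
  rw [hp₀]
  have e : q n β a' R' * p ^ (n - 1) = v * p ^ n := by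
    rw [hv]
    have : p ^ n = p * p ^ (n - 1) := by
      rw [← pow_succ']; congr 1; omega
    rw [this]
    field_simp
  rw [e]
  nlinarith [pow_pos hp0 n]

theorem R_nonneg (hC : TaskC) {k : ℕ} (hk : 1 ≤ k) (A : Finset ℤ) : 0 ≤ R k A :=
  le_csSup (bdd hC hk A) (G_zero k hk A)

/-- the energy form of the main theorem for several sets -/
theorem main_R (hA : TaskA) (hB : TaskB) (hC : TaskC) (hD : TaskD) (hE : TaskE)
    {k n : ℕ} (hk : 2 ≤ k) (hn : 2 ≤ n) {β : ℝ} (hβ : 0 < β)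
    (hcβ : ((n : ℝ) - (n - 1) * (1 / (2 * k - 1))) ^ β = 2 * k - 1)
    (A : Fin n → Finset ℤ) (hAn : ∀ i, (A i).Nonempty) (hAp : ∀ i, ∀ a ∈ A i, 0 < a) :
    ∏ i, (((A i).card : ℝ) ^ (1 + β) / R k (A i)) ^ (1 / ((n : ℝ) * β)) ≤
      ((prodset A).card : ℝ) := by
  have hk1 : 1 ≤ k := by omega
  have hn1 : 1 ≤ n := by omega
  have hk2 : (2:ℝ) ≤ k := by exact_mod_cast hk
  have hc0 : (0:ℝ) < 2 * k - 1 := by linarith
  set c : ℝ := 1 / (2 * k - 1) with hc
  have hcpos : 0 < c := by positivity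
  have hclt : c < 1 := by rw [hc, div_lt_one hc0]; linarith
  have hcβ' : ((n : ℝ) - (n - 1) * c) ^ β = 1 / c := by rw [hcβ, hc]; field_simp
  apply hD n hn1 (fun A => (((A).card : ℝ) ^ (1 + β) / R k (A)) ^ (1 / ((n : ℝ) * β)))
  · intro A
    exact q_nonneg n β (Nat.cast_nonneg _) (R_nonneg hC hk1 A)
  · intro p A A₀ A' j hp hA0 hne0 hne' hdisj hun hv0 hv'
    have hcard : (A.card : ℝ) = A₀.card + A'.card := by
      rw [← hun, Finset.card_union_of_disjoint hdisj]; push_cast; ring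
    have s0 : A₀ ⊆ A := by rw [← hun]; exact Finset.subset_union_left
    have s1 : A' ⊆ A := by rw [← hun]; exact Finset.subset_union_right
    have r0 := one_le_R hC hk1 hne0
    have r1 := one_le_R hC hk1 hne'
    have hR0 : R k A₀ ≤ R k A := R_sub hC hk1 s0
    have : Fact p.Prime := ⟨hp⟩
    have hcomb := R_comb hA hB hC (k := k) (m := p ^ (j + 1)) hk1 (Nat.one_le_pow _ _ hp.pos) s0 s1
      (by
        intro n hn hdvd
        have hpos := hA0 n (s0 hn)
        have := (padicValInt_dvd_iff (p := p) (j + 1) n).1 (by exact_mod_cast hdvd)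
        rcases this with h | h
        · omega
        · rw [hv0 n hn] at h; omega)
      (by
        intro n hn
        have h := (padicValInt_dvd_iff (p := p) (j + 1) n).2 (Or.inr (hv' n hn))
        exact_mod_cast h)
    have hcomb' : R k A' + c * R k A₀ ≤ R k A := by
      rw [hc]
      have : 1 / (2 * (k:ℝ) - 1) * R k A₀ = R k A₀ / (2 * k - 1) := by ring
      linarith
    have := os hE hn hcpos hclt hβ hcβ' (a₀ := (A₀.card : ℝ)) (a' := (A'.card : ℝ))
      (by exact_mod_cast hne0.card_pos) (by exact_mod_cast hne'.card_pos)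
      (by linarith) (by linarith) hR0 hcomb'
    rw [← hcard] at this
    exact this
  · intro a ha
    have h1 := one_le_R hC hk1 (Finset.singleton_nonempty a)
    have : (({a} : Finset ℤ).card : ℝ) ^ (1 + β) / R k {a} ≤ 1 := by
      rw [Finset.card_singleton, Nat.cast_one, Real.one_rpow, div_le_one (by linarith)]
      exact h1
    have h0 : 0 ≤ (({a} : Finset ℤ).card : ℝ) ^ (1 + β) / R k {a} :=
      div_nonneg (Real.rpow_nonneg (Nat.cast_nonneg _) _) (by linarith)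
    exact Real.rpow_le_one h0 this (by positivity)
  · exact hAn
  · exact hAp

/-- main theorem for one set of positive integers -/
theorem main_pos (hA : TaskA) (hB : TaskB) (hC : TaskC) (hD : TaskD) (hE : TaskE)
    {k n : ℕ} (hk : 2 ≤ k) (hn : 2 ≤ n) {β : ℝ} (hβ : 0 < β)
    (hcβ : ((n : ℝ) - (n - 1) * (1 / (2 * k - 1))) ^ β = 2 * k - 1)
    (A : Finset ℤ) (hAn : A.Nonempty) (hAp : ∀ a ∈ A, 0 < a) :
    (A.card : ℝ) ^ ((k : ℝ) * (1 + β)) ≤
      ((sumset k A).card : ℝ) * ((prodset fun _ : Fin n => A).card : ℝ) ^ ((k : ℝ) * β) := by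
  have hk1 : 1 ≤ k := by omega
  have hn1 : 1 ≤ n := by omega
  have h := main_R hA hB hC hD hE hk hn hβ hcβ (fun _ => A) (fun _ => hAn) (fun _ => hAp)
  have hR := one_le_R hC hk1 hAn
  have hR0 : 0 < R k A := by linarith
  have hcard : (0:ℝ) < A.card := by exact_mod_cast hAn.card_pos
  rw [Finset.prod_const, Finset.card_univ, Fintype.card_fin] at h
  change q n β (A.card : ℝ) (R k A) ^ n ≤ _ at h
  rw [q_pow n hn1 hβ hcard hR0] at h
  have h2 := Real.rpow_le_rpow (by positivity) h hβ.le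
  rw [← Real.rpow_mul (by positivity)] at h2
  have e : 1 / β * β = 1 := by field_simp
  rw [e, Real.rpow_one, div_le_iff₀ hR0] at h2
  have h3 := pow_le_pow_left₀ (by positivity) h2 k
  have h4 := R_pow hC hk1 hAn
  calc (A.card : ℝ) ^ ((k : ℝ) * (1 + β)) = ((A.card : ℝ) ^ (1 + β)) ^ k := by
        rw [← Real.rpow_natCast, ← Real.rpow_mul hcard.le, mul_comm]
    _ ≤ _ := h3
    _ = R k A ^ k * ((prodset fun _ : Fin n => A).card : ℝ) ^ ((k : ℝ) * β) := by
        rw [mul_pow, mul_comm, ← Real.rpow_natCast (((prodset fun _ : Fin n => A).card : ℝ) ^ β),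
          ← Real.rpow_mul (by positivity), mul_comm β]
    _ ≤ _ := by
        apply mul_le_mul_of_nonneg_right h4 (by positivity)

end Pool.Agent.H384R3.SPk
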