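import Pool.Agent.H384R3.SPk.Lin
import Pool.Agent.H271R3.SPkJ

set_option autoImplicit false

namespace Pool.Agent.H384R3.SPk

open Finset MeasureTheory Pool.Agent.H384R3.SPk.C Pool.Agent.H224R3.SPk

theorem young {t s : ℝ} (ht : 0 ≤ t) (hs : 0 < s) :
    3 / 2 / s * t ^ 2 - 1 / 2 / s ^ 3 * t ^ 4 ≤ t := by
  have h : t - (3 / 2 / s * t ^ 2 - 1 / 2 / s ^ 3 * t ^ 4) =
      t / (2 * s ^ 3) * ((t - s) ^ 2 * (t + 2 * s)) := by
    field_simp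
    ring
  have h2 : 0 ≤ t / (2 * s ^ 3) * ((t - s) ^ 2 * (t + 2 * s)) := by positivity
  linarith

/-- lower bound for the `L^1` norm -/
theorem l1_lower (f : ℝ → ℝ) (hf : Continuous f) (h0 : ∀ x, 0 ≤ f x) {s I2 I4 : ℝ} (hs : 0 < s)
    (h2 : ∫ x in (0:ℝ)..1, f x ^ 2 = I2) (h4 : ∫ x in (0:ℝ)..1, f x ^ 4 ≤ I4) :
    3 / 2 / s * I2 - 1 / 2 / s ^ 3 * I4 ≤ ∫ x in (0:ℝ)..1, f x := by
  have hc2 : Continuous fun x => 3 / 2 / s * f x ^ 2 := continuous_const.mul (hf.pow 2)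
  have hc4 : Continuous fun x => 1 / 2 / s ^ 3 * f x ^ 4 := continuous_const.mul (hf.pow 4)
  have h5 : ∫ x in (0:ℝ)..1, (3 / 2 / s * f x ^ 2 - 1 / 2 / s ^ 3 * f x ^ 4) ≤
      ∫ x in (0:ℝ)..1, f x :=
    intervalIntegral.integral_mono_on zero_le_one ((hc2.sub hc4).intervalIntegrable _ _)
      (hf.intervalIntegrable _ _) fun x _ => young (h0 x) hs
  rw [intervalIntegral.integral_sub (hc2.intervalIntegrable _ _) (hc4.intervalIntegrable _ _),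
    intervalIntegral.integral_const_mul, intervalIntegral.integral_const_mul, h2] at h5
  have h6 : 1 / 2 / s ^ 3 * ∫ x in (0:ℝ)..1, f x ^ 4 ≤ 1 / 2 / s ^ 3 * I4 :=
    mul_le_mul_of_nonneg_left h4 (by positivity)
  linarith

theorem M2 (A : Finset ℤ) {r : ℕ} (hJ : N 2 (ind A) ≤ 3 ^ r * (A.card : ℝ)) :
    ∫ x in (0:ℝ)..1, ‖F (ind A) x‖ ^ 4 ≤ (3 ^ r * (A.card : ℝ)) ^ 2 := by
  have h1 : ∫ x in (0:ℝ)..1, ‖F (ind A) x‖ ^ 4 = M 2 (ind A) := rfl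
  rw [h1, ← N_pow 2 (by norm_num)]
  exact pow_le_pow_left₀ (N_nonneg _ _) hJ 2

theorem L2 (A : Finset ℤ) : ∫ x in (0:ℝ)..1, ‖F (ind A) x‖ ^ 2 = A.card := by
  have h := parseval A (fun _ => 1)
  have h1 : ∀ x, F (ind A) x = ∑ s ∈ A, ((1:ℝ) : ℂ) * e s x := by
    intro x
    rw [F_ind]
    refine Finset.sum_congr rfl fun n _ => ?_
    simp
  simp_rw [h1]
  rw [h]
  simp

/-- Littlewood type lower bound -/
theorem littlewood (A : Finset ℤ) (hA : A.Nonempty) {r : ℕ}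
    (hJ : N 2 (ind A) ≤ 3 ^ r * (A.card : ℝ)) :
    Real.sqrt A.card / 3 ^ r ≤ ∫ x in (0:ℝ)..1, ‖F (ind A) x‖ := by
  have hn : (0:ℝ) < A.card := by exact_mod_cast hA.card_pos
  set n : ℝ := (A.card : ℝ) with hndef
  have hq : 0 < Real.sqrt n := Real.sqrt_pos.2 hn
  have hq2 : Real.sqrt n * Real.sqrt n = n := Real.mul_self_sqrt hn.le
  have h3 : (0:ℝ) < 3 ^ r := by positivity
  have h := l1_lower (fun x => ‖F (ind A) x‖) (F_cont _).norm (fun x => norm_nonneg _)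
    (s := 3 ^ r * Real.sqrt n) (by positivity) (L2 A) (M2 A hJ)
  refine le_trans (le_of_eq ?_) h
  set q := Real.sqrt n with hqdef
  rw [← hndef, ← hq2]
  field_simp
  ring

end Pool.Agent.H384R3.SPk
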