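import Pool.Agent.H384R3.SPk.Chow

set_option autoImplicit false

namespace Pool.Agent.H384R3.SPk

open Finset MeasureTheory Pool.Agent.H384R3.SPk.C Pool.Agent.H224R3.SPk

theorem e_re (n : ℤ) (x : ℝ) : (e n x).re = Real.cos (2 * Real.pi * n * x) := by
  unfold e
  have : (2 * Real.pi * Complex.I * n * x : ℂ) = ((2 * Real.pi * n * x : ℝ) : ℂ) * Complex.I := by
    push_cast; ring
  rw [this, Complex.exp_ofReal_mul_I_re]

theorem F_re (A : Finset ℤ) (x : ℝ) :
    (F (ind A) x).re = ∑ a ∈ A, Real.cos (2 * Real.pi * a * x) := by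
  rw [F_ind, Complex.re_sum]
  exact Finset.sum_congr rfl fun n _ => e_re n x

theorem int_re (g : ℝ → ℂ) (hg : Continuous g) :
    ∫ x in (0:ℝ)..1, (g x).re = (∫ x in (0:ℝ)..1, g x).re := by
  exact Complex.reCLM.intervalIntegral_comp_comm (hg.intervalIntegrable (0:ℝ) 1)

theorem mean_zero (A : Finset ℤ) (hA : ∀ a ∈ A, 0 < a) :
    ∫ x in (0:ℝ)..1, (F (ind A) x).re = 0 := by
  rw [int_re _ (F_cont _)]
  simp_rw [F_ind]
  rw [intervalIntegral.integral_finsetSum fun a _ => (e_cont _).intervalIntegrable _ _]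
  simp_rw [ortho]
  rw [Finset.sum_eq_zero]
  · simp
  · intro a ha
    rw [if_neg (hA a ha).ne']

theorem sq_zero (A : Finset ℤ) (hA : ∀ a ∈ A, 0 < a) :
    ∫ x in (0:ℝ)..1, (F (ind A) x) ^ 2 = 0 := by
  have h1 : ∀ x, (F (ind A) x) ^ 2 = ∑ a ∈ A, ∑ b ∈ A, e (a + b) x := by
    intro x
    rw [F_ind, sq, sum_mul_sum]
    exact Finset.sum_congr rfl fun a _ => Finset.sum_congr rfl fun b _ => (e_add a b x).symm
  simp_rw [h1]
  rw [intervalIntegral.integral_finsetSum]
  · apply Finset.sum_eq_zero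
    intro a ha
    rw [intervalIntegral.integral_finsetSum fun b _ => (e_cont _).intervalIntegrable _ _]
    apply Finset.sum_eq_zero
    intro b hb
    have h1 := hA a ha
    have h2 := hA b hb
    rw [ortho, if_neg (by omega)]
  · intro a _
    exact (continuous_finsetSum _ fun b _ => e_cont _).intervalIntegrable _ _

theorem cos_sq (A : Finset ℤ) (hA : ∀ a ∈ A, 0 < a) :
    ∫ x in (0:ℝ)..1, |(F (ind A) x).re| ^ 2 = (A.card : ℝ) / 2 := by
  have h1 : ∀ z : ℂ, |z.re| ^ 2 = 1 / 2 * ‖z‖ ^ 2 + 1 / 2 * (z ^ 2).re := by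
    intro z
    rw [sq_abs, ← Complex.normSq_eq_norm_sq, Complex.normSq_apply, sq z, Complex.mul_re]
    ring
  simp_rw [h1]
  have hc1 : Continuous fun x => 1 / 2 * ‖F (ind A) x‖ ^ 2 :=
    continuous_const.mul ((F_cont _).norm.pow 2)
  have hc2 : Continuous fun x => 1 / 2 * ((F (ind A) x) ^ 2).re :=
    continuous_const.mul (Complex.continuous_re.comp ((F_cont _).pow 2))
  rw [intervalIntegral.integral_add (hc1.intervalIntegrable _ _) (hc2.intervalIntegrable _ _),
    intervalIntegral.integral_const_mul, intervalIntegral.integral_const_mul, L2,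
    int_re (fun x => (F (ind A) x) ^ 2) ((F_cont _).pow 2), sq_zero A hA]
  simp
  ring

/-- Chowla's cosine problem for sets with small additive energy -/
theorem chowla (A : Finset ℤ) (hA0 : A.Nonempty) (hA : ∀ a ∈ A, 0 < a) {r : ℕ}
    (hJ : N 2 (ind A) ≤ 3 ^ r * (A.card : ℝ)) :
    ∃ x : ℝ, ∑ a ∈ A, Real.cos (2 * Real.pi * a * x) ≤
      -(Real.sqrt A.card / (4 * Real.sqrt 2 * 3 ^ r)) := by
  have hn : (0:ℝ) < A.card := by exact_mod_cast hA0.card_pos
  set n : ℝ := (A.card : ℝ) with hndef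
  have hcont : Continuous fun x => (F (ind A) x).re := Complex.continuous_re.comp (F_cont _)
  obtain ⟨x₀, hx₀, hmin⟩ := (isCompact_Icc (a := (0:ℝ)) (b := 1)).exists_isMinOn
    ⟨0, by simp⟩ hcont.continuousOn
  refine ⟨x₀, ?_⟩
  rw [← F_re]
  set m : ℝ := (F (ind A) x₀).re with hm
  have hmin' : ∀ x ∈ Set.Icc (0:ℝ) 1, m ≤ (F (ind A) x).re := fun x hx => hmin hx
  -- `m ≤ 0`
  have hm0 : m ≤ 0 := by
    have := intervalIntegral.integral_mono_on (μ := volume) zero_le_one
      (continuous_const.intervalIntegrable (0:ℝ) 1) (hcont.intervalIntegrable 0 1) hmin'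
    rw [mean_zero A hA] at this
    simpa using this
  have hI1 : ∫ x in (0:ℝ)..1, |(F (ind A) x).re| ≤ -(2 * m) := by
    have hc2 : Continuous fun x => (F (ind A) x).re + -(2 * m) := hcont.add continuous_const
    have := intervalIntegral.integral_mono_on (μ := volume) zero_le_one
      (hcont.abs.intervalIntegrable (0:ℝ) 1) (hc2.intervalIntegrable 0 1) (fun x hx => by
        have h1 := hmin' x hx
        rcases abs_cases (F (ind A) x).re with ⟨h2, h3⟩ | ⟨h2, h3⟩
        · rw [h2]; linarith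
        · rw [h2]; linarith)
    rw [intervalIntegral.integral_add (hcont.intervalIntegrable _ _)
      (continuous_const.intervalIntegrable _ _), mean_zero A hA] at this
    simpa using this
  have hI4 : ∫ x in (0:ℝ)..1, |(F (ind A) x).re| ^ 4 ≤ (3 ^ r * n) ^ 2 := by
    refine le_trans ?_ (M2 A hJ)
    exact intervalIntegral.integral_mono_on (μ := volume) zero_le_one
      ((hcont.abs.pow 4).intervalIntegrable (0:ℝ) 1)
      (((F_cont _).norm.pow 4).intervalIntegrable 0 1)
      (fun x _ => pow_le_pow_left₀ (abs_nonneg _) (Complex.abs_re_le_norm _) 4)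
  have hq : 0 < Real.sqrt n := Real.sqrt_pos.2 hn
  have hq2 : Real.sqrt n * Real.sqrt n = n := Real.mul_self_sqrt hn.le
  have ht : 0 < Real.sqrt 2 := Real.sqrt_pos.2 (by norm_num)
  have ht2 : Real.sqrt 2 * Real.sqrt 2 = 2 := Real.mul_self_sqrt (by norm_num)
  have h3 : (0:ℝ) < 3 ^ r := by positivity
  have h := l1_lower (fun x => |(F (ind A) x).re|) hcont.abs (fun x => abs_nonneg _)
    (s := 3 ^ r * Real.sqrt n * Real.sqrt 2) (by positivity) (cos_sq A hA) hI4
  have h5 := h.trans hI1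
  have h6 : 3 / 2 / (3 ^ r * Real.sqrt n * Real.sqrt 2) * (n / 2) -
      1 / 2 / (3 ^ r * Real.sqrt n * Real.sqrt 2) ^ 3 * (3 ^ r * n) ^ 2 =
      2 * (Real.sqrt n / (4 * Real.sqrt 2 * 3 ^ r)) := by
    set q := Real.sqrt n with hqdef
    set t := Real.sqrt 2 with htdef
    set c : ℝ := 3 ^ r with hcdef
    have e3 : (c * q * t) ^ 3 = c ^ 3 * (q * q) * q * (t * t) * t := by ring
    rw [e3, ht2, ← hq2]
    field_simp
    ring
  rw [h6] at h5
  linarith

end Pool.Agent.H384R3.SPk
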