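import Mathlib

set_option autoImplicit false

namespace Pool.Agent.H384R3.SPk

open Finset

/-- the trigonometric polynomial with coefficients `f` -/
noncomputable def F (f : ℤ →₀ ℝ) (x : ℝ) : ℂ :=
  f.sum fun n a => (a : ℂ) * Complex.exp (2 * Real.pi * Complex.I * n * x)

/-- the `2k`-th power of the `L^(2k)` norm of `F f` -/
noncomputable def M (k : ℕ) (f : ℤ →₀ ℝ) : ℝ := ∫ x in (0:ℝ)..1, ‖F f x‖ ^ (2 * k)

/-- the square of the `L^(2k)` norm of `F f` -/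
noncomputable def N (k : ℕ) (f : ℤ →₀ ℝ) : ℝ := (M k f) ^ ((1:ℝ) / k)

/-- `k`-fold sumset -/
def sumset (k : ℕ) (A : Finset ℤ) : Finset ℤ :=
  (Fintype.piFinset fun _ : Fin k => A).image fun f => ∑ i, f i

/-- product set of a family of sets -/
def prodset {n : ℕ} (A : Fin n → Finset ℤ) : Finset ℤ :=
  (Fintype.piFinset A).image fun f => ∏ i, f i

/-- Task A: two point inequality (Ball-Carlen-Lieb) in `L^(2k)`. -/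
def TaskA : Prop := ∀ (k : ℕ), 1 ≤ k → ∀ g f : ℤ →₀ ℝ,
  N k (g + f) + N k (g - f) ≤ 2 * N k g + 2 * (2 * k - 1) * N k f

/-- Task B: contractivity of the conditional expectation. -/
def TaskB : Prop := ∀ (k m : ℕ), 1 ≤ k → 1 ≤ m → ∀ g f : ℤ →₀ ℝ,
  (∀ n ∈ g.support, (m : ℤ) ∣ n) → (∀ n ∈ f.support, ¬ (m : ℤ) ∣ n) →
  N k g ≤ N k (g + f)

/-- Task C: counting. -/
def TaskC : Prop := ∀ (k : ℕ), 1 ≤ k → ∀ (A : Finset ℤ) (f : ℤ →₀ ℝ), f.support ⊆ A →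
  (∀ n, 0 ≤ f n) → (∑ n ∈ A, f n) ^ (2 * k) ≤ ((sumset k A).card : ℝ) * M k f

/-- Task D: the product set induction. -/
def TaskD : Prop := ∀ (n : ℕ), 1 ≤ n → ∀ P : Finset ℤ → ℝ, (∀ A, 0 ≤ P A) →
  (∀ (p : ℕ) (A A₀ A' : Finset ℤ) (j : ℕ), p.Prime → (∀ a ∈ A, 0 < a) → A₀.Nonempty →
    A'.Nonempty → Disjoint A₀ A' → A₀ ∪ A' = A → (∀ a ∈ A₀, padicValInt p a = j) →
    (∀ a ∈ A', j < padicValInt p a) → P A ^ n ≤ P A₀ ^ n + P A' * P A ^ (n - 1)) →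
  (∀ a : ℤ, 0 < a → P {a} ≤ 1) →
  ∀ A : Fin n → Finset ℤ, (∀ i, (A i).Nonempty) → (∀ i, ∀ a ∈ A i, 0 < a) →
    ∏ i, P (A i) ≤ ((prodset A).card : ℝ)

/-- Task E: the key real inequality. -/
def TaskE : Prop := ∀ (n : ℕ), 2 ≤ n → ∀ (c β Q u : ℝ), 0 < c → c < 1 → 0 < β →
  ((n : ℝ) - (n - 1) * c) ^ β = 1 / c → 0 ≤ Q → Q ≤ 1 → 0 ≤ u → u ≤ 1 →
  (1 - c * Q) * (1 - u) ^ ((n : ℝ) * β) ≤ (1 - (Q * u ^ β) ^ (1 / (1 + β))) ^ (1 + β)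

end Pool.Agent.H384R3.SPk
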