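import Pool.Agent.H384R3.SPk.Defs

set_option autoImplicit false

namespace Pool.Agent.H384R3.SPk

open Finset

/-- Task F: geometric progressions show that the exponent is nearly optimal. -/
def TaskF : Prop := ∀ k n : ℕ, 2 ≤ k → 2 ≤ n → ∀ β : ℝ, 0 < β →
  (∀ A : Finset ℤ, A.Nonempty → (∀ a ∈ A, 0 < a) → (A.card : ℝ) ^ ((k : ℝ) * (1 + β)) ≤
    ((sumset k A).card : ℝ) * ((prodset fun _ : Fin n => A).card : ℝ) ^ ((k : ℝ) * β)) →
  (k.factorial : ℝ) ≤ (n : ℝ) ^ ((k : ℝ) * β)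

/-- Task G: sign reduction. -/
def TaskG : Prop := ∀ A : Finset ℤ, A.Nonempty → A ≠ {0} →
  ∃ B : Finset ℤ, B.Nonempty ∧ (∀ b ∈ B, 0 < b) ∧ A.card ≤ 3 * B.card ∧
    (∀ k : ℕ, (sumset k B).card ≤ (sumset k A).card) ∧
    (∀ n : ℕ, (prodset fun _ : Fin n => B).card ≤ (prodset fun _ : Fin n => A).card)

/-- Task H: monotonicity in the number of terms. -/
def TaskH : Prop := ∀ B : Finset ℤ, B.Nonempty → (∀ b ∈ B, 0 < b) → ∀ k N : ℕ, k ≤ N →
  (sumset k B).card ≤ (sumset N B).card ∧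
  (prodset fun _ : Fin k => B).card ≤ (prodset fun _ : Fin N => B).card

end Pool.Agent.H384R3.SPk
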