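import Pool.Agent.H384R3.SPk.Defs

set_option autoImplicit false

namespace Pool.Agent.H384R3.SPk

open Finset

/-- sum of dilates of several sets -/
def dilsum {k : ℕ} (l : Fin k → ℤ) (A : Fin k → Finset ℤ) : Finset ℤ :=
  (Fintype.piFinset A).image fun f => ∑ i, l i * f i

/-- Task I: counting for sums of dilates of different sets (Hoelder). -/
def TaskI : Prop := ∀ (k : ℕ), 1 ≤ k → ∀ (l : Fin k → ℤ) (A : Fin k → Finset ℤ)
  (f : Fin k → (ℤ →₀ ℝ)), (∀ i, l i ≠ 0) → (∀ i, (f i).support ⊆ A i) → (∀ i n, 0 ≤ f i n) →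
  (∏ i, ∑ n ∈ A i, f i n) ^ 2 ≤ ((dilsum l A).card : ℝ) * ∏ i, N k (f i)

end Pool.Agent.H384R3.SPk
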