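import Pool.Agent.H384R3.SPk.Defs

set_option autoImplicit false

namespace Pool.Agent.H384R3.SPk

open Finset

/-- Bernoulli at the critical point -/
theorem crit {n : ℕ} (hn : 2 ≤ n) {c : ℝ} (hc : 0 < c) (hc1 : c < 1) :
    (1 - c / ((n : ℝ) - (n - 1) * c)) ^ n ≤ 1 - c := by
  have hn0 : (2:ℝ) ≤ n := by exact_mod_cast hn
  have h1c : 0 < 1 - c := by linarith
  have hnn : (0:ℝ) < n * (1 - c) := by positivity
  have hn' : (n : ℝ) - (n - 1) * c = n * (1 - c) + c := by ring
  have hn'0 : (0:ℝ) < n * (1 - c) + c := by positivity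
  have h := one_add_mul_le_pow (a := c / (n * (1 - c))) (by
    have : 0 ≤ c / (n * (1 - c)) := by positivity
    linarith) n
  have e1 : 1 + (n:ℝ) * (c / (n * (1 - c))) = 1 / (1 - c) := by
    field_simp
    ring
  rw [e1] at h
  have e2 : 1 - c / ((n : ℝ) - (n - 1) * c) = (1 + c / (n * (1 - c)))⁻¹ := by
    rw [hn']
    field_simp
    ring
  rw [e2, inv_pow]
  have h2 : 0 < 1 / (1 - c) := by positivity
  calc ((1 + c / (n * (1 - c))) ^ n)⁻¹ ≤ (1 / (1 - c))⁻¹ := inv_anti₀ h2 h
    _ = 1 - c := by simp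

/-- the first region -/
theorem region1 {n : ℕ} (hn : 2 ≤ n) {c : ℝ} (hc : 0 < c) (hc1 : c < 1) {u : ℝ} (hu : 0 ≤ u)
    (hu1 : ((n : ℝ) - (n - 1) * c) * u ≤ c) :
    (1 - u) ^ n ≤ 1 - ((n : ℝ) - (n - 1) * c) * u := by
  have hn0 : (2:ℝ) ≤ n := by exact_mod_cast hn
  have h1c : 0 < 1 - c := by linarith
  have hn' : (n : ℝ) - (n - 1) * c = n * (1 - c) + c := by ring
  have hn'0 : (0:ℝ) < n * (1 - c) + c := by positivity
  have hcr := crit hn hc hc1
  rw [hn'] at hcr hu1 ⊢
  set n' : ℝ := n * (1 - c) + c with hn'def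
  have hcn : c ≤ n' := by rw [hn'def]; nlinarith
  set t : ℝ := n' * u / c with ht
  have ht0 : 0 ≤ t := by positivity
  have ht1 : t ≤ 1 := by rw [ht, div_le_one hc]; exact hu1
  have hcv := (convexOn_pow (𝕜 := ℝ) n).2 (show (1:ℝ) ∈ Set.Ici (0:ℝ) by simp)
    (show 1 - c / n' ∈ Set.Ici (0:ℝ) by
      simp only [Set.mem_Ici]; rw [sub_nonneg, div_le_one hn'0]; exact hcn)
    (show 0 ≤ 1 - t by linarith) ht0 (by ring)
  simp only [smul_eq_mul, one_pow, mul_one] at hcv
  have e : (1 - t) + t * (1 - c / n') = 1 - u := by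
    rw [ht]; field_simp; ring
  rw [e] at hcv
  have e2 : n' * u = t * c := by rw [ht]; field_simp
  rw [e2]
  nlinarith

theorem stepA {c β r y : ℝ} (hc : 0 < c) (hc1 : c < 1) (hβ : 0 < β) (hr : 0 ≤ r) (hr1 : r ≤ 1)
    (hcy : c ≤ y) (hy1 : y < 1) :
    (1 - c * r ^ (1 + β)) * (1 - y) ^ (1 + β) ≤ (1 - c) * (1 - r * y) ^ (1 + β) := by
  have h1 : 1 + (1 + β) * (r - 1) ≤ (1 + (r - 1)) ^ (1 + β) :=
    one_add_mul_self_le_rpow_one_add (by linarith) (by linarith)
  have e1 : 1 + (r - 1) = r := by ring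
  rw [e1] at h1
  have hy0 : 0 < y := by linarith
  have h1y : 0 < 1 - y := by linarith
  have h1c : 0 < 1 - c := by linarith
  set w := y / (1 - y) * (1 - r) with hw
  have hw0 : 0 ≤ w := mul_nonneg (by positivity) (by linarith)
  have h2 : 1 + (1 + β) * w ≤ (1 + w) ^ (1 + β) :=
    one_add_mul_self_le_rpow_one_add (by linarith) (by linarith)
  have e2 : 1 - r * y = (1 - y) * (1 + w) := by rw [hw]; field_simp; ring
  rw [e2, Real.mul_rpow h1y.le (by linarith)]
  have hpos : 0 ≤ (1 - y) ^ (1 + β) := by positivity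
  have hcw : c / (1 - c) * (1 - r) ≤ w := by
    rw [hw]
    apply mul_le_mul_of_nonneg_right _ (by linarith)
    rw [div_le_div_iff₀ h1c h1y]
    nlinarith
  have h3 : 1 - c * r ^ (1 + β) ≤ (1 - c) * (1 + w) ^ (1 + β) := by
    have h4 : (1 - c) * (c / (1 - c) * (1 - r)) = c * (1 - r) := by field_simp
    have h5 : (1 - c) * (1 + (1 + β) * w) ≤ (1 - c) * (1 + w) ^ (1 + β) :=
      mul_le_mul_of_nonneg_left h2 h1c.le
    have h6 : (1 - c) * (c / (1 - c) * (1 - r)) ≤ (1 - c) * w :=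
      mul_le_mul_of_nonneg_left hcw h1c.le
    rw [h4] at h6
    have h7 : (1 + β) * (c * (1 - r)) ≤ (1 + β) * ((1 - c) * w) :=
      mul_le_mul_of_nonneg_left h6 (by linarith)
    nlinarith
  calc (1 - c * r ^ (1 + β)) * (1 - y) ^ (1 + β)
      ≤ ((1 - c) * (1 + w) ^ (1 + β)) * (1 - y) ^ (1 + β) := mul_le_mul_of_nonneg_right h3 hpos
    _ = _ := by ring

theorem stepB {n : ℕ} (hn : 2 ≤ n) {c β : ℝ} (hc : 0 < c) (hc1 : c < 1) (hβ : 0 < β)
    (hcβ : ((n : ℝ) - (n - 1) * c) ^ β = 1 / c) {w : ℝ}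
    (hw : 1 / ((n : ℝ) - (n - 1) * c) ≤ w) (hw1 : w < 1) :
    (1 - c) * (1 - w ^ (1 + β)) ^ ((n : ℝ) * β) ≤ (1 - w ^ β) ^ (1 + β) := by
  have hn0 : (2:ℝ) ≤ n := by exact_mod_cast hn
  have h1c : 0 < 1 - c := by linarith
  have hn'0 : (1:ℝ) < (n : ℝ) - (n - 1) * c := by nlinarith
  have hcr := crit hn hc hc1
  set n' : ℝ := (n : ℝ) - (n - 1) * c with hn'def
  set W : ℝ := 1 / n' with hW
  have hW0 : 0 < W := by positivity
  have hW1 : W < 1 := by rw [hW, div_lt_one (by linarith)]; exact hn'0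
  have hWβ : W ^ β = c := by
    rw [hW, Real.div_rpow (by norm_num) (by linarith), Real.one_rpow, hcβ]; field_simp
  have hW1β : W ^ (1 + β) = c / n' := by
    rw [Real.rpow_add hW0, Real.rpow_one, hWβ, hW]; ring
  -- powers below one
  have lt1 : ∀ v : ℝ, 0 < v → v < 1 → ∀ e : ℝ, 0 < e → v ^ e < 1 := fun v h0 h1 e he =>
    Real.rpow_lt_one h0.le h1 he
  have hH : ∀ v ∈ Set.Icc W 1, 1 ≤ (n:ℝ) * v - (n - 1) * v ^ (1 + β) := by
    intro v hv
    obtain ⟨hv0, hv1⟩ := hv
    set t : ℝ := (v - W) / (1 - W) with ht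
    have h1W : 0 < 1 - W := by linarith
    have ht0 : 0 ≤ t := div_nonneg (by linarith) h1W.le
    have ht1 : t ≤ 1 := by rw [ht, div_le_one h1W]; linarith
    have hcv := (convexOn_rpow (p := 1 + β) (by linarith)).2
      (show W ∈ Set.Ici (0:ℝ) by simp only [Set.mem_Ici]; exact hW0.le)
      (show (1:ℝ) ∈ Set.Ici (0:ℝ) by simp)
      (show 0 ≤ 1 - t by linarith) ht0 (by ring)
    simp only [smul_eq_mul, Real.one_rpow, mul_one] at hcv
    have e : (1 - t) * W + t = v := by rw [ht]; field_simp; ring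
    rw [e, hW1β] at hcv
    have e2 : (n:ℝ) * W - (n - 1) * (c / n') = 1 := by
      rw [hW]
      have : n' ≠ 0 := by positivity
      field_simp
      rw [hn'def]
    have h3 : ((n:ℝ) - 1) * v ^ (1 + β) ≤ (n - 1) * ((1 - t) * (c / n') + t) :=
      mul_le_mul_of_nonneg_left hcv (by linarith)
    have h4 : (n:ℝ) * v = n * ((1 - t) * W + t) := by rw [e]
    rw [h4]
    have h5 : (n:ℝ) * ((1 - t) * W + t) - (n - 1) * ((1 - t) * (c / n') + t) =
        (1 - t) * ((n:ℝ) * W - (n - 1) * (c / n')) + t := by ring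
    rw [e2] at h5
    linarith
  set Φ : ℝ → ℝ := fun v => (1 + β) * Real.log (1 - v ^ β) -
    (n * β) * Real.log (1 - v ^ (1 + β)) with hΦ
  have hder : ∀ v : ℝ, 0 < v → v < 1 → HasDerivAt Φ
      ((1 + β) * (-(β * v ^ (β - 1)) / (1 - v ^ β)) -
        (n * β) * (-((1 + β) * v ^ (1 + β - 1)) / (1 - v ^ (1 + β)))) v := by
    intro v hv0 hv1
    have a1 : HasDerivAt (fun v : ℝ => 1 - v ^ β) (-(β * v ^ (β - 1))) v := by
      have := (Real.hasDerivAt_rpow_const (p := β) (Or.inl hv0.ne')).const_sub 1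
      exact this
    have a2 : HasDerivAt (fun v : ℝ => 1 - v ^ (1 + β)) (-((1 + β) * v ^ (1 + β - 1))) v := by
      have := (Real.hasDerivAt_rpow_const (p := 1 + β) (Or.inl hv0.ne')).const_sub 1
      exact this
    have b1 := lt1 v hv0 hv1 β hβ
    have b2 := lt1 v hv0 hv1 (1 + β) (by linarith)
    exact ((a1.log (by linarith)).const_mul (1 + β)).sub
      ((a2.log (by linarith)).const_mul ((n:ℝ) * β))
  have hmono : MonotoneOn Φ (Set.Ico W 1) := by
    apply monotoneOn_of_deriv_nonneg (convex_Ico W 1)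
    · intro v hv
      exact (hder v (lt_of_lt_of_le hW0 hv.1) hv.2).continuousAt.continuousWithinAt
    · intro v hv
      rw [interior_Ico] at hv
      exact (hder v (hW0.trans hv.1) hv.2).differentiableAt.differentiableWithinAt
    · intro v hv
      rw [interior_Ico] at hv
      have hv0 : 0 < v := hW0.trans hv.1
      rw [(hder v hv0 hv.2).deriv]
      have b1 := lt1 v hv0 hv.2 β hβ
      have b2 := lt1 v hv0 hv.2 (1 + β) (by linarith)
      have hh := hH v ⟨hv.1.le, hv.2.le⟩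
      have e1 : v ^ (1 + β) = v * v ^ β := by rw [Real.rpow_add hv0, Real.rpow_one]
      have e2 : v ^ (1 + β - 1) = v * v ^ (β - 1) := by
        have : (1 + β - 1) = 1 + (β - 1) := by ring
        rw [this, Real.rpow_add hv0, Real.rpow_one]
      have c1 : 0 < 1 - v ^ β := by linarith
      have c2 : 0 < 1 - v ^ (1 + β) := by linarith
      have c3 : 0 < v ^ (β - 1) := by positivity
      have key : 1 - v ^ (1 + β) ≤ n * v * (1 - v ^ β) := by
        rw [e1] at hh ⊢
        nlinarith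
      have e3 : (1 + β) * (-(β * v ^ (β - 1)) / (1 - v ^ β)) -
        (n * β) * (-((1 + β) * v ^ (1 + β - 1)) / (1 - v ^ (1 + β))) =
        β * (1 + β) * v ^ (β - 1) * ((n * v * (1 - v ^ β) - (1 - v ^ (1 + β))) /
          ((1 - v ^ β) * (1 - v ^ (1 + β)))) := by
        rw [e2]
        field_simp
        ring
      rw [e3]
      have : 0 ≤ n * v * (1 - v ^ β) - (1 - v ^ (1 + β)) := by linarith
      positivity
  have hΦW : Real.log (1 - c) ≤ Φ W := by
    simp only [hΦ]
    rw [hWβ, hW1β]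
    have hcn : 0 < 1 - c / n' := by
      rw [sub_pos, div_lt_one (by linarith)]; linarith
    have h1 : (n:ℝ) * Real.log (1 - c / n') ≤ Real.log (1 - c) := by
      rw [← Real.log_pow]
      exact Real.log_le_log (by positivity) hcr
    have h2 : β * ((n:ℝ) * Real.log (1 - c / n')) ≤ β * Real.log (1 - c) :=
      mul_le_mul_of_nonneg_left h1 hβ.le
    nlinarith
  have hw0 : 0 < w := lt_of_lt_of_le hW0 hw
  have hfin : Real.log (1 - c) ≤ Φ w :=
    hΦW.trans (hmono ⟨le_rfl, hW1⟩ ⟨hw, hw1⟩ hw)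
  have b1 : 0 < 1 - w ^ β := by linarith [lt1 w hw0 hw1 β hβ]
  have b2 : 0 < 1 - w ^ (1 + β) := by linarith [lt1 w hw0 hw1 (1 + β) (by linarith)]
  rw [← Real.log_le_log_iff (by positivity) (by positivity), Real.log_mul (by positivity) (by positivity),
    Real.log_rpow b2, Real.log_rpow b1]
  simp only [hΦ] at hfin
  linarith

theorem taskE : TaskE := by
  intro n hn c β Q u hc hc1 hβ hcβ hQ0 hQ1 hu0 hu1
  have hn0 : (2:ℝ) ≤ n := by exact_mod_cast hn
  have h1c : 0 < 1 - c := by linarith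
  have hn'0 : (1:ℝ) < (n : ℝ) - (n - 1) * c := by nlinarith
  have hr1 := region1 hn hc hc1 hu0
  have hB := fun w => stepB hn hc hc1 hβ hcβ (w := w)
  set n' : ℝ := (n : ℝ) - (n - 1) * c with hn'def
  have hcn : c * n' ^ β = 1 := by rw [hcβ]; field_simp
  have hs : 1 / (1 + β) + β / (1 + β) = 1 := by field_simp
  have hx : (Q * u ^ β) ^ (1 / (1 + β)) = Q ^ (1 / (1 + β)) * u ^ (β / (1 + β)) := by
    rw [Real.mul_rpow hQ0 (by positivity), ← Real.rpow_mul hu0]
    congr 2
    field_simp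
  have hcQ : 0 ≤ 1 - c * Q := by nlinarith
  have h1u : 0 ≤ 1 - u := by linarith
  rcases le_or_gt (n' * u) c with hcase | hcase
  · have h1 := hr1 hcase
    have h2 : (1 - u) ^ ((n:ℝ) * β) ≤ (1 - n' * u) ^ β := by
      rw [Real.rpow_mul h1u, Real.rpow_natCast]
      exact Real.rpow_le_rpow (by positivity) h1 hβ.le
    have h1nu : 0 ≤ 1 - n' * u := by linarith
    have hAM1 := Real.geom_mean_le_arith_mean2_weighted (w₁ := 1 / (1 + β)) (w₂ := β / (1 + β))
      (p₁ := c * Q) (p₂ := n' * u) (by positivity) (by positivity) (by positivity) (by positivity) hs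
    have hAM2 := Real.geom_mean_le_arith_mean2_weighted (w₁ := 1 / (1 + β)) (w₂ := β / (1 + β))
      (p₁ := 1 - c * Q) (p₂ := 1 - n' * u) (by positivity) (by positivity) hcQ h1nu hs
    have e1 : (c * Q) ^ (1 / (1 + β)) * (n' * u) ^ (β / (1 + β)) =
        Q ^ (1 / (1 + β)) * u ^ (β / (1 + β)) := by
      rw [Real.mul_rpow hc.le hQ0, Real.mul_rpow (by positivity) hu0]
      have : c ^ (1 / (1 + β)) * n' ^ (β / (1 + β)) = 1 := by
        have e : n' ^ (β / (1 + β)) = (n' ^ β) ^ (1 / (1 + β)) := by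
          rw [← Real.rpow_mul (by linarith)]; congr 1; field_simp
        rw [e, ← Real.mul_rpow hc.le (by positivity), hcn, Real.one_rpow]
      calc _ = (c ^ (1 / (1 + β)) * n' ^ (β / (1 + β))) *
          (Q ^ (1 / (1 + β)) * u ^ (β / (1 + β))) := by ring
        _ = _ := by rw [this, one_mul]
    rw [e1] at hAM1
    rw [hx]
    set x := Q ^ (1 / (1 + β)) * u ^ (β / (1 + β)) with hxdef
    set z := (1 - c * Q) ^ (1 / (1 + β)) * (1 - n' * u) ^ (β / (1 + β)) with hz
    have hsum : x + z ≤ 1 := by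
      have : 1 / (1 + β) * (c * Q) + β / (1 + β) * (n' * u) + (1 / (1 + β) * (1 - c * Q) +
          β / (1 + β) * (1 - n' * u)) = 1 / (1 + β) + β / (1 + β) := by ring
      linarith
    have hz0 : 0 ≤ z := by positivity
    have hzp : z ^ (1 + β) = (1 - c * Q) * (1 - n' * u) ^ β := by
      rw [hz, Real.mul_rpow (by positivity) (by positivity), ← Real.rpow_mul hcQ, ← Real.rpow_mul h1nu]
      have a1 : 1 / (1 + β) * (1 + β) = 1 := by field_simp
      have a2 : β / (1 + β) * (1 + β) = β := by field_simp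
      rw [a1, a2, Real.rpow_one]
    calc (1 - c * Q) * (1 - u) ^ ((n:ℝ) * β) ≤ (1 - c * Q) * (1 - n' * u) ^ β :=
          mul_le_mul_of_nonneg_left h2 hcQ
      _ = z ^ (1 + β) := hzp.symm
      _ ≤ (1 - x) ^ (1 + β) := Real.rpow_le_rpow hz0 (by linarith) (by linarith)
  · have hupos : 0 < u := by
      by_contra h
      have : u = 0 := le_antisymm (not_lt.1 h) hu0
      rw [this, mul_zero] at hcase
      linarith
    rw [hx]
    set r := Q ^ (1 / (1 + β)) with hr
    have hr0 : 0 ≤ r := by positivity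
    have hr1 : r ≤ 1 := Real.rpow_le_one hQ0 hQ1 (by positivity)
    have hy1 : u ^ (β / (1 + β)) ≤ 1 := Real.rpow_le_one hu0 hu1 (by positivity)
    have hy0 : 0 ≤ u ^ (β / (1 + β)) := by positivity
    rcases hu1.eq_or_lt with h | hult
    · rw [h]
      have : (1 - (1:ℝ)) ^ ((n:ℝ) * β) = 0 := by
        rw [sub_self, Real.zero_rpow (by positivity)]
      rw [this, mul_zero]
      apply Real.rpow_nonneg
      rw [Real.one_rpow]
      linarith
    · set w := u ^ (1 / (1 + β)) with hw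
      have hwlt : w < 1 := Real.rpow_lt_one hu0 hult (by positivity)
      have hwβ : w ^ β = u ^ (β / (1 + β)) := by
        rw [hw, ← Real.rpow_mul hu0]; congr 1; field_simp
      have hw1β : w ^ (1 + β) = u := by
        rw [hw, ← Real.rpow_mul hu0]
        have : 1 / (1 + β) * (1 + β) = 1 := by field_simp
        rw [this, Real.rpow_one]
      have hWw : 1 / n' ≤ w := by
        have h1 : (1 / n') ^ (1 + β) ≤ w ^ (1 + β) := by
          rw [hw1β, Real.rpow_add (by positivity), Real.rpow_one, Real.div_rpow (by norm_num)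
            (by linarith), Real.one_rpow, hcβ]
          have : 1 / n' * (1 / (1 / c)) = c / n' := by field_simp
          rw [this, div_le_iff₀ (by linarith)]
          linarith
        by_contra hcon
        push Not at hcon
        have := Real.rpow_lt_rpow (by positivity) hcon (show 0 < 1 + β by linarith)
        linarith
      have h2 := hB w hWw hwlt
      rw [hw1β, hwβ] at h2
      have hcy : c ≤ u ^ (β / (1 + β)) := by
        rw [← hwβ]
        have h3 : (1 / n') ^ β ≤ w ^ β := Real.rpow_le_rpow (by positivity) hWw hβ.le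
        rw [Real.div_rpow (by norm_num) (by linarith), Real.one_rpow, hcβ] at h3
        have : 1 / (1 / c) = c := by field_simp
        rwa [this] at h3
      have hylt : u ^ (β / (1 + β)) < 1 := Real.rpow_lt_one hu0 hult (by positivity)
      have h3 := stepA hc hc1 hβ hr0 hr1 hcy hylt
      have hrQ : r ^ (1 + β) = Q := by
        rw [hr, ← Real.rpow_mul hQ0]
        have : 1 / (1 + β) * (1 + β) = 1 := by field_simp
        rw [this, Real.rpow_one]
      rw [hrQ] at h3
      have h4 : (1 - c * Q) * ((1 - c) * (1 - u) ^ ((n:ℝ) * β)) ≤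
          (1 - c * Q) * (1 - u ^ (β / (1 + β))) ^ (1 + β) := mul_le_mul_of_nonneg_left h2 hcQ
      have h5 : (1 - c) * ((1 - c * Q) * (1 - u) ^ ((n:ℝ) * β)) ≤
          (1 - c) * (1 - r * u ^ (β / (1 + β))) ^ (1 + β) := by
        calc _ = (1 - c * Q) * ((1 - c) * (1 - u) ^ ((n:ℝ) * β)) := by ring
          _ ≤ _ := h4.trans h3
      exact le_of_mul_le_mul_left h5 h1c

end Pool.Agent.H384R3.SPk
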