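import Pool.Agent.H384R3.SPk.Asm
import Pool.Agent.H384R3.SPk.E
import Pool.Agent.H384R3.SPk.TaskC
import Pool.Agent.H384R3.SPk.Defs2
import Pool.Agent.H318R3.SPk.TaskD
import Pool.Agent.H142R3.SPkB
import Pool.Agent.H218R3.SPkA

set_option autoImplicit false

namespace Pool.Agent.H384R3.SPk

open Finset

theorem tA : TaskA := Pool.Agent.H218R3.SPkA.taskA
theorem tB : TaskB := Pool.Agent.H142R3.SPkB.taskB
theorem tC : TaskC := C.taskC

/-- the critical exponent -/
theorem exists_crit {k n : ℕ} (hk : 2 ≤ k) (hn : 2 ≤ n) {β : ℝ}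
    (h : (2 * k - 1 : ℝ) ≤ ((n : ℝ) - (n - 1) / (2 * k - 1)) ^ β) :
    ∃ β₀ : ℝ, 0 < β₀ ∧ β₀ ≤ β ∧
      ((n : ℝ) - (n - 1) * (1 / (2 * k - 1))) ^ β₀ = 2 * k - 1 := by
  have hk2 : (2:ℝ) ≤ k := by exact_mod_cast hk
  have hn2 : (2:ℝ) ≤ n := by exact_mod_cast hn
  have hc0 : (0:ℝ) < 2 * k - 1 := by linarith
  have e : (n : ℝ) - (n - 1) * (1 / (2 * k - 1)) = (n : ℝ) - (n - 1) / (2 * k - 1) := by ring
  rw [e]
  set n' : ℝ := (n : ℝ) - (n - 1) / (2 * k - 1) with hn'
  have hn'1 : 1 < n' := by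
    rw [hn']
    have : ((n:ℝ) - 1) / (2 * k - 1) < n - 1 := by
      rw [div_lt_iff₀ hc0]; nlinarith
    linarith
  have hlog : 0 < Real.log n' := Real.log_pos hn'1
  have hlk : 0 < Real.log (2 * k - 1) := Real.log_pos (by linarith)
  refine ⟨Real.log (2 * k - 1) / Real.log n', by positivity, ?_, ?_⟩
  · rw [div_le_iff₀ hlog, ← Real.log_rpow (by linarith)]
    exact Real.log_le_log hc0 h
  · rw [Real.rpow_def_of_pos (by linarith), mul_div_cancel₀ _ hlog.ne', Real.exp_log hc0]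

theorem card_le_prodset {n : ℕ} (hn : 1 ≤ n) (A : Fin n → Finset ℤ) (hA : ∀ i, (A i).Nonempty)
    (hAp : ∀ i, ∀ a ∈ A i, 0 < a) (j : Fin n) : (A j).card ≤ (prodset A).card := by
  classical
  choose b hb using hA
  apply Finset.card_le_card_of_injOn (fun x => ∏ i, Function.update b j x i)
  · intro x hx
    unfold prodset
    simp only [Finset.coe_image, Set.mem_image, Finset.mem_coe, Fintype.mem_piFinset]
    refine ⟨Function.update b j x, fun i => ?_, rfl⟩
    by_cases h : i = j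
    · subst h; simpa using hx
    · rw [Function.update_of_ne h]; exact hb i
  · intro x _ y _ hxy
    simp only [Finset.prod_update_of_mem (Finset.mem_univ j)] at hxy
    have : (∏ i ∈ Finset.univ \ {j}, b i) ≠ 0 := by
      apply ne_of_gt
      exact Finset.prod_pos fun i _ => hAp i (b i) (hb i)
    exact mul_right_cancel₀ this hxy

/-- several sets -/
theorem family {k n : ℕ} (hk : 2 ≤ k) (hn : 2 ≤ n) {β : ℝ}
    (h : (2 * k - 1 : ℝ) ≤ ((n : ℝ) - (n - 1) / (2 * k - 1)) ^ β)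
    (A : Fin n → Finset ℤ) (hA : ∀ i, (A i).Nonempty) (hAp : ∀ i, ∀ a ∈ A i, 0 < a) :
    ∏ i, ((A i).card : ℝ) ^ ((k : ℝ) * (1 + β)) ≤
      (∏ i, ((sumset k (A i)).card : ℝ)) * ((prodset A).card : ℝ) ^ ((k : ℝ) * n * β) := by
  have hk1 : 1 ≤ k := by omega
  have hn1 : 1 ≤ n := by omega
  have hn0 : (0:ℝ) < n := by exact_mod_cast (show 0 < n by omega)
  obtain ⟨β₀, hβ₀, hle, hcrit⟩ := exists_crit hk hn h
  have hm := main_R tA tB tC taskD taskE hk hn hβ₀ hcrit A hA hAp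
  have hR : ∀ i, 1 ≤ R k (A i) := fun i => one_le_R tC hk1 (hA i)
  have hR0 : ∀ i, 0 < R k (A i) := fun i => by have := hR i; linarith
  have hcard : ∀ i, (1:ℝ) ≤ (A i).card := fun i => by exact_mod_cast (hA i).card_pos
  have hPpos : (1:ℝ) ≤ (prodset A).card := by
    have := card_le_prodset hn1 A hA hAp ⟨0, by omega⟩
    have h2 := (hA ⟨0, by omega⟩).card_pos
    exact_mod_cast (by omega : 1 ≤ (prodset A).card)
  set P : ℝ := ((prodset A).card : ℝ) with hP
  have h2 := Real.rpow_le_rpow (Finset.prod_nonneg fun i _ => by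
    have := hR0 i; positivity) hm (show 0 ≤ (n:ℝ) * β₀ by positivity)
  rw [← Real.finsetProd_rpow _ _ (fun i _ => by have := hR0 i; positivity)] at h2
  have e1 : ∀ i ∈ (Finset.univ : Finset (Fin n)),
      ((((A i).card : ℝ) ^ (1 + β₀) / R k (A i)) ^ (1 / ((n : ℝ) * β₀))) ^ ((n:ℝ) * β₀) =
        ((A i).card : ℝ) ^ (1 + β₀) / R k (A i) := by
    intro i _
    have := hR0 i
    rw [← Real.rpow_mul (by positivity)]
    have : 1 / ((n : ℝ) * β₀) * (n * β₀) = 1 := by field_simp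
    rw [this, Real.rpow_one]
  rw [Finset.prod_congr rfl e1, Finset.prod_div_distrib, div_le_iff₀ (Finset.prod_pos fun i _ => hR0 i)] at h2
  have h3 : ∏ i, ((A i).card : ℝ) ^ (β - β₀) ≤ P ^ ((n:ℝ) * (β - β₀)) := by
    calc ∏ i, ((A i).card : ℝ) ^ (β - β₀) ≤ ∏ _i : Fin n, P ^ (β - β₀) := by
          apply Finset.prod_le_prod
          · intro i _; have := hcard i; positivity
          · intro i _
            apply Real.rpow_le_rpow (by positivity) _ (by linarith)
            rw [hP]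
            exact_mod_cast card_le_prodset hn1 A hA hAp i
      _ = _ := by
          rw [Finset.prod_const, Finset.card_univ, Fintype.card_fin, ← Real.rpow_natCast,
            ← Real.rpow_mul (by positivity), mul_comm]
  have h4 : ∏ i, ((A i).card : ℝ) ^ (1 + β) ≤ P ^ ((n:ℝ) * β) * ∏ i, R k (A i) := by
    have e2 : ∏ i, ((A i).card : ℝ) ^ (1 + β) =
        (∏ i, ((A i).card : ℝ) ^ (1 + β₀)) * ∏ i, ((A i).card : ℝ) ^ (β - β₀) := by
      rw [← Finset.prod_mul_distrib]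
      refine Finset.prod_congr rfl fun i _ => ?_
      have := hcard i
      rw [← Real.rpow_add (by linarith)]
      congr 1; ring
    have e3 : P ^ ((n:ℝ) * β) = P ^ ((n:ℝ) * β₀) * P ^ ((n:ℝ) * (β - β₀)) := by
      rw [← Real.rpow_add (by linarith)]; congr 1; ring
    rw [e2, e3]
    calc _ ≤ (P ^ ((n:ℝ) * β₀) * ∏ i, R k (A i)) * P ^ ((n:ℝ) * (β - β₀)) := by
          apply mul_le_mul h2 h3
          · exact Finset.prod_nonneg fun i _ => by have := hcard i; positivity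
          · have : 0 ≤ ∏ i, R k (A i) := Finset.prod_nonneg fun i _ => (hR0 i).le
            positivity
      _ = _ := by ring
  have h5 := pow_le_pow_left₀ (Finset.prod_nonneg fun i _ => by have := hcard i; positivity) h4 k
  rw [mul_pow, ← Finset.prod_pow, ← Finset.prod_pow] at h5
  have e4 : ∀ i ∈ (Finset.univ : Finset (Fin n)), (((A i).card : ℝ) ^ (1 + β)) ^ k =
      ((A i).card : ℝ) ^ ((k : ℝ) * (1 + β)) := by
    intro i _
    have := hcard i
    rw [← Real.rpow_natCast, ← Real.rpow_mul (by linarith), mul_comm]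
  rw [Finset.prod_congr rfl e4] at h5
  refine h5.trans ?_
  have e5 : (P ^ ((n:ℝ) * β)) ^ k = P ^ ((k : ℝ) * n * β) := by
    rw [← Real.rpow_natCast, ← Real.rpow_mul (by linarith)]; congr 1; ring
  rw [e5, mul_comm]
  apply mul_le_mul_of_nonneg_right _ (by positivity)
  apply Finset.prod_le_prod
  · intro i _; have := hR0 i; positivity
  · intro i _; exact R_pow tC hk1 (hA i)

theorem single {k n : ℕ} (hk : 2 ≤ k) (hn : 2 ≤ n) {β : ℝ}
    (h : (2 * k - 1 : ℝ) ≤ ((n : ℝ) - (n - 1) / (2 * k - 1)) ^ β)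
    (A : Finset ℤ) (hA : A.Nonempty) (hAp : ∀ a ∈ A, 0 < a) :
    (A.card : ℝ) ^ ((k : ℝ) * (1 + β)) ≤
      ((sumset k A).card : ℝ) * ((prodset fun _ : Fin n => A).card : ℝ) ^ ((k : ℝ) * β) := by
  obtain ⟨β₀, hβ₀, hle, hcrit⟩ := exists_crit hk hn h
  have hm := main_pos tA tB tC taskD taskE hk hn hβ₀ hcrit A hA hAp
  have hcard : (1:ℝ) ≤ A.card := by exact_mod_cast hA.card_pos
  have hP : (A.card : ℝ) ≤ (prodset fun _ : Fin n => A).card := by
    exact_mod_cast card_le_prodset (by omega) (fun _ => A) (fun _ => hA) (fun _ => hAp) ⟨0, by omega⟩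
  set P : ℝ := ((prodset fun _ : Fin n => A).card : ℝ)
  have hk0 : (0:ℝ) ≤ k := by positivity
  have e2 : (A.card : ℝ) ^ ((k : ℝ) * (1 + β)) =
      (A.card : ℝ) ^ ((k : ℝ) * (1 + β₀)) * (A.card : ℝ) ^ ((k : ℝ) * (β - β₀)) := by
    rw [← Real.rpow_add (by linarith)]; congr 1; ring
  have e3 : P ^ ((k:ℝ) * β) = P ^ ((k:ℝ) * β₀) * P ^ ((k:ℝ) * (β - β₀)) := by
    rw [← Real.rpow_add (by linarith)]; congr 1; ring
  have h3 : (A.card : ℝ) ^ ((k : ℝ) * (β - β₀)) ≤ P ^ ((k:ℝ) * (β - β₀)) :=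
    Real.rpow_le_rpow (by linarith) hP (mul_nonneg hk0 (by linarith))
  rw [e2, e3]
  calc _ ≤ (((sumset k A).card : ℝ) * P ^ ((k:ℝ) * β₀)) * P ^ ((k:ℝ) * (β - β₀)) := by
        apply mul_le_mul hm h3 (by positivity) (by positivity)
    _ = _ := by ring

theorem card_pos_sum (k : ℕ) {A : Finset ℤ} (hA : A.Nonempty) : 1 ≤ (sumset k A).card := by
  obtain ⟨a, ha⟩ := hA
  apply Finset.card_pos.2
  exact ⟨_, Finset.mem_image_of_mem _ (Fintype.mem_piFinset.2 fun _ => ha)⟩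

theorem card_pos_prod (k : ℕ) {A : Finset ℤ} (hA : A.Nonempty) :
    1 ≤ (prodset fun _ : Fin k => A).card := by
  obtain ⟨a, ha⟩ := hA
  apply Finset.card_pos.2
  exact ⟨_, Finset.mem_image_of_mem _ (Fintype.mem_piFinset.2 fun _ => ha)⟩

/-- all finite sets of integers -/
theorem single_all (hG : TaskG) {k n : ℕ} (hk : 2 ≤ k) (hn : 2 ≤ n) {β : ℝ} (hβ : 0 ≤ β)
    (h : (2 * k - 1 : ℝ) ≤ ((n : ℝ) - (n - 1) / (2 * k - 1)) ^ β)
    (A : Finset ℤ) (hA : A.Nonempty) :
    (A.card : ℝ) ^ ((k : ℝ) * (1 + β)) ≤ 3 ^ ((k : ℝ) * (1 + β)) *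
      (((sumset k A).card : ℝ) * ((prodset fun _ : Fin n => A).card : ℝ) ^ ((k : ℝ) * β)) := by
  have hk0 : (0:ℝ) ≤ k := by positivity
  by_cases h0 : A = {0}
  · have h1 : (1:ℝ) ≤ (sumset k A).card := by exact_mod_cast card_pos_sum k hA
    have h2 : (1:ℝ) ≤ (prodset fun _ : Fin n => A).card := by exact_mod_cast card_pos_prod n hA
    have h3 : (1:ℝ) ≤ ((prodset fun _ : Fin n => A).card : ℝ) ^ ((k : ℝ) * β) :=
      Real.one_le_rpow h2 (by positivity)
    have h4 : (1:ℝ) ≤ 3 ^ ((k : ℝ) * (1 + β)) := Real.one_le_rpow (by norm_num) (by positivity)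
    have h5 : (A.card : ℝ) ^ ((k : ℝ) * (1 + β)) = 1 := by
      rw [h0, Finset.card_singleton, Nat.cast_one, Real.one_rpow]
    rw [h5]
    exact one_le_mul_of_one_le_of_one_le h4 (one_le_mul_of_one_le_of_one_le h1 h3)
  · obtain ⟨B, hB, hBp, hAB, hs, hp⟩ := hG A hA h0
    have hm := single hk hn h B hB hBp
    have h1 : (A.card : ℝ) ≤ 3 * B.card := by exact_mod_cast hAB
    have h2 : (A.card : ℝ) ^ ((k : ℝ) * (1 + β)) ≤ (3 * B.card) ^ ((k : ℝ) * (1 + β)) :=
      Real.rpow_le_rpow (by positivity) h1 (by positivity)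
    rw [Real.mul_rpow (by norm_num) (by positivity)] at h2
    refine h2.trans (mul_le_mul_of_nonneg_left (hm.trans ?_) (by positivity))
    have h3 : ((sumset k B).card : ℝ) ≤ (sumset k A).card := by exact_mod_cast hs k
    have h4 : ((prodset fun _ : Fin n => B).card : ℝ) ≤ (prodset fun _ : Fin n => A).card := by
      exact_mod_cast hp n
    apply mul_le_mul h3 (Real.rpow_le_rpow (by positivity) h4 (by positivity)) (by positivity)
      (by positivity)

/-- explicit exponent for `max (|NA|, |A^N|)` -/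
theorem max_all (hG : TaskG) (hH : TaskH) {k n : ℕ} (hk : 2 ≤ k) (hn : 2 ≤ n) (hkn : k ≤ n)
    {β : ℝ} (hβ : 0 ≤ β)
    (h : (2 * k - 1 : ℝ) ≤ ((n : ℝ) - (n - 1) / (2 * k - 1)) ^ β)
    (A : Finset ℤ) (hA : A.Nonempty) :
    (A.card : ℝ) ^ ((k : ℝ) * (1 + β)) ≤ 3 ^ ((k : ℝ) * (1 + β)) *
      (max ((sumset n A).card : ℝ) ((prodset fun _ : Fin n => A).card : ℝ)) ^ (1 + (k : ℝ) * β) := by
  have hk0 : (0:ℝ) ≤ k := by positivity
  set X : ℝ := max ((sumset n A).card : ℝ) ((prodset fun _ : Fin n => A).card : ℝ) with hX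
  have hX1 : (1:ℝ) ≤ X := le_max_of_le_left (by exact_mod_cast card_pos_sum n hA)
  by_cases h0 : A = {0}
  · have h4 : (1:ℝ) ≤ 3 ^ ((k : ℝ) * (1 + β)) := Real.one_le_rpow (by norm_num) (by positivity)
    have h5 : (A.card : ℝ) ^ ((k : ℝ) * (1 + β)) = 1 := by
      rw [h0, Finset.card_singleton, Nat.cast_one, Real.one_rpow]
    rw [h5]
    exact one_le_mul_of_one_le_of_one_le h4 (Real.one_le_rpow hX1 (by positivity))
  · obtain ⟨B, hB, hBp, hAB, hs, hp⟩ := hG A hA h0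
    have hm := single hk hn h B hB hBp
    have h1 : (A.card : ℝ) ≤ 3 * B.card := by exact_mod_cast hAB
    have h2 : (A.card : ℝ) ^ ((k : ℝ) * (1 + β)) ≤ (3 * B.card) ^ ((k : ℝ) * (1 + β)) :=
      Real.rpow_le_rpow (by positivity) h1 (by positivity)
    rw [Real.mul_rpow (by norm_num) (by positivity)] at h2
    refine h2.trans (mul_le_mul_of_nonneg_left (hm.trans ?_) (by positivity))
    have h3 : ((sumset k B).card : ℝ) ≤ X := by
      refine le_trans ?_ (le_max_left _ _)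
      exact_mod_cast ((hH B hB hBp k n hkn).1.trans (hs n))
    have h4 : ((prodset fun _ : Fin n => B).card : ℝ) ≤ X := by
      refine le_trans ?_ (le_max_right _ _)
      exact_mod_cast hp n
    calc _ ≤ X * X ^ ((k : ℝ) * β) := by
          apply mul_le_mul h3 (Real.rpow_le_rpow (by positivity) h4 (by positivity)) (by positivity)
            (by linarith)
      _ = _ := by rw [Real.rpow_add (by linarith), Real.rpow_one]

/-- dichotomy -/
theorem dichotomy (hG : TaskG) (k : ℕ) (hk : 1 ≤ k) (ε s : ℝ) (hε : 0 < ε) :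
    ∃ n : ℕ, 2 ≤ n ∧ ∃ c : ℝ, 0 < c ∧ ∀ A : Finset ℤ, A.Nonempty →
      c * (A.card : ℝ) ^ ((k : ℝ) - ε) ≤ ((sumset k A).card : ℝ) ∨
      (A.card : ℝ) ^ s ≤ ((prodset fun _ : Fin n => A).card : ℝ) := by
  rcases hk.eq_or_lt with h1 | h2
  · refine ⟨2, le_rfl, 1, one_pos, fun A hA => Or.inl ?_⟩
    have hcard : (1:ℝ) ≤ A.card := by exact_mod_cast hA.card_pos
    have : A.card ≤ (sumset k A).card := by
      subst h1
      apply Finset.card_le_card
      intro a ha
      exact Finset.mem_image.2 ⟨fun _ => a, Fintype.mem_piFinset.2 fun _ => ha, by simp⟩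
    rw [one_mul, ← h1, Nat.cast_one]
    calc (A.card : ℝ) ^ ((1:ℝ) - ε) ≤ (A.card : ℝ) ^ (1:ℝ) :=
          Real.rpow_le_rpow_of_exponent_le hcard (by linarith)
      _ = A.card := Real.rpow_one _
      _ ≤ _ := by rw [h1]; exact_mod_cast this
  · have hk2 : (2:ℝ) ≤ k := by exact_mod_cast h2
    have hk0 : (0:ℝ) < k := by linarith
    set β : ℝ := ε / (k * (|s| + 1)) with hβdef
    have hs0 : 0 ≤ |s| := abs_nonneg s
    have hβ : 0 < β := by positivity
    have hc0 : (0:ℝ) < 2 * k - 1 := by linarith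
    -- choose n
    obtain ⟨n, hn⟩ := exists_nat_gt (max 2 (3 / 2 * (2 * (k:ℝ) - 1) ^ (1 / β)))
    have hn2 : (2:ℝ) < n := lt_of_le_of_lt (le_max_left _ _) hn
    have hn3 : 3 / 2 * (2 * (k:ℝ) - 1) ^ (1 / β) < n := lt_of_le_of_lt (le_max_right _ _) hn
    have hnn : 2 ≤ n := by
      have : (2:ℝ) < (n:ℝ) := hn2
      exact_mod_cast this.le
    have hn' : (2 * (k:ℝ) - 1) ^ (1 / β) ≤ (n : ℝ) - (n - 1) / (2 * k - 1) := by
      have : ((n:ℝ) - 1) / (2 * k - 1) ≤ n / 3 := by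
        rw [div_le_div_iff₀ hc0 (by norm_num)]
        nlinarith
      linarith
    have hcond : (2 * k - 1 : ℝ) ≤ ((n : ℝ) - (n - 1) / (2 * k - 1)) ^ β := by
      have h3 := Real.rpow_le_rpow (by positivity) hn' hβ.le
      rw [← Real.rpow_mul hc0.le] at h3
      have : 1 / β * β = 1 := by field_simp
      rwa [this, Real.rpow_one] at h3
    refine ⟨n, hnn, 1 / 3 ^ ((k : ℝ) * (1 + β)), by positivity, fun A hA => ?_⟩
    by_cases hcase : (A.card : ℝ) ^ s ≤ ((prodset fun _ : Fin n => A).card : ℝ)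
    · exact Or.inr hcase
    · left
      push Not at hcase
      have hcard : (1:ℝ) ≤ A.card := by exact_mod_cast hA.card_pos
      have hcard0 : (0:ℝ) < A.card := by linarith
      have hm := single_all hG h2 hnn hβ.le hcond A hA
      have h4 : ((prodset fun _ : Fin n => A).card : ℝ) ^ ((k : ℝ) * β) ≤
          (A.card : ℝ) ^ (s * ((k : ℝ) * β)) := by
        rw [Real.rpow_mul hcard0.le]
        exact Real.rpow_le_rpow (by positivity) hcase.le (by positivity)
      have hS0 : (0:ℝ) ≤ (sumset k A).card := by positivity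
      have h5 : (A.card : ℝ) ^ ((k : ℝ) * (1 + β)) ≤ 3 ^ ((k : ℝ) * (1 + β)) *
          (((sumset k A).card : ℝ) * (A.card : ℝ) ^ (s * ((k : ℝ) * β))) :=
        hm.trans (mul_le_mul_of_nonneg_left (mul_le_mul_of_nonneg_left h4 hS0) (by positivity))
      have h6 : (A.card : ℝ) ^ ((k : ℝ) - ε) * (A.card : ℝ) ^ (s * ((k : ℝ) * β)) ≤
          (A.card : ℝ) ^ ((k : ℝ) * (1 + β)) := by
        rw [← Real.rpow_add hcard0]
        apply Real.rpow_le_rpow_of_exponent_le hcard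
        have h7 : s * ((k:ℝ) * β) ≤ |s| * (k * β) :=
          mul_le_mul_of_nonneg_right (le_abs_self s) (by positivity)
        have h8 : (|s| + 1) * (k * β) = ε := by rw [hβdef]; field_simp
        nlinarith [mul_pos hk0 hβ]
      have h9 : 0 < (A.card : ℝ) ^ (s * ((k : ℝ) * β)) := by positivity
      rw [one_div, inv_mul_le_iff₀ (by positivity)]
      have h10 := h6.trans h5
      have h11 : (A.card : ℝ) ^ ((k : ℝ) - ε) * (A.card : ℝ) ^ (s * ((k : ℝ) * β)) ≤
          (3 ^ ((k : ℝ) * (1 + β)) * ((sumset k A).card : ℝ)) *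
            (A.card : ℝ) ^ (s * ((k : ℝ) * β)) := by
        calc _ ≤ _ := h10
          _ = _ := by ring
      exact le_of_mul_le_mul_right h11 h9

end Pool.Agent.H384R3.SPk
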