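import Pool.Agent.H384R3.SPk.Defs

set_option autoImplicit false

namespace Pool.Agent.H384R3.SPk

open Finset

theorem F_smul (t : ℝ) (f : ℤ →₀ ℝ) (x : ℝ) : F (t • f) x = (t : ℂ) * F f x := by
  unfold F
  rw [Finsupp.sum_smul_index (by intro i; simp)]
  rw [Finsupp.mul_sum]
  refine Finsupp.sum_congr fun n _ => ?_
  push_cast
  ring

theorem F_zero (x : ℝ) : F 0 x = 0 := by
  unfold F; simp

theorem F_single (a : ℤ) (x : ℝ) : ‖F (Finsupp.single a 1) x‖ = 1 := by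
  unfold F
  rw [Finsupp.sum_single_index (by simp)]
  rw [Complex.ofReal_one, one_mul]
  have : (2 * Real.pi * Complex.I * a * x : ℂ) = ((2 * Real.pi * a * x : ℝ) : ℂ) * Complex.I := by
    push_cast; ring
  rw [this, Complex.norm_exp_ofReal_mul_I]

theorem M_nonneg (k : ℕ) (f : ℤ →₀ ℝ) : 0 ≤ M k f := by
  unfold M
  apply intervalIntegral.integral_nonneg (by norm_num)
  intro x _
  positivity

theorem N_nonneg (k : ℕ) (f : ℤ →₀ ℝ) : 0 ≤ N k f := Real.rpow_nonneg (M_nonneg k f) _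

theorem N_pow (k : ℕ) (hk : 1 ≤ k) (f : ℤ →₀ ℝ) : N k f ^ k = M k f := by
  unfold N
  rw [← Real.rpow_natCast, ← Real.rpow_mul (M_nonneg k f)]
  have : ((1:ℝ) / k) * k = 1 := by field_simp
  rw [this, Real.rpow_one]

theorem N_smul (k : ℕ) (hk : 1 ≤ k) (t : ℝ) (f : ℤ →₀ ℝ) : N k (t • f) = t ^ 2 * N k f := by
  have hM : M k (t • f) = (t ^ 2) ^ k * M k f := by
    unfold M
    rw [← intervalIntegral.integral_const_mul]
    congr 1
    funext x
    rw [F_smul, norm_mul, mul_pow, Complex.norm_real, ← pow_mul, Real.norm_eq_abs, pow_mul, sq_abs,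
      ← pow_mul]
  unfold N
  rw [hM, Real.mul_rpow (by positivity) (M_nonneg k f), ← Real.rpow_natCast, ← Real.rpow_mul (by positivity)]
  have : (k:ℝ) * ((1:ℝ) / k) = 1 := by field_simp
  rw [this, Real.rpow_one]

theorem N_zero (k : ℕ) (hk : 1 ≤ k) : N k 0 = 0 := by
  have := N_smul k hk 0 0
  simpa using this

theorem N_single (k : ℕ) (a : ℤ) : N k (Finsupp.single a 1) = 1 := by
  have : M k (Finsupp.single a 1) = 1 := by
    unfold M
    simp [F_single]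
  unfold N
  rw [this, Real.one_rpow]

/-- one-sided two-smoothness -/
theorem smooth (hA : TaskA) (hB : TaskB) (k m : ℕ) (hk : 1 ≤ k) (hm : 1 ≤ m) (g f : ℤ →₀ ℝ)
    (hg : ∀ n ∈ g.support, (m : ℤ) ∣ n) (hf : ∀ n ∈ f.support, ¬ (m : ℤ) ∣ n) :
    N k (g + f) ≤ N k g + (2 * k - 1) * N k f := by
  set C : ℝ := (2 * k - 1) * N k f with hC
  have hk1 : (1:ℝ) ≤ k := by exact_mod_cast hk
  have hC0 : 0 ≤ C := mul_nonneg (by linarith) (N_nonneg k f)
  set φ : ℝ → ℝ := fun t => N k (g + t • f) with hφ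
  have h1 : ∀ t s : ℝ, φ (t + s) + φ (t - s) ≤ 2 * φ t + 2 * s ^ 2 * C := by
    intro t s
    have h := hA k hk (g + t • f) (s • f)
    rw [N_smul k hk] at h
    have e1 : g + t • f + s • f = g + (t + s) • f := by rw [add_smul]; abel
    have e2 : g + t • f - s • f = g + (t - s) • f := by rw [sub_smul]; abel
    rw [e1, e2] at h
    calc φ (t + s) + φ (t - s) ≤ _ := h
      _ = 2 * φ t + 2 * s ^ 2 * C := by rw [hC]; ring
  have h2 : ∀ t : ℝ, φ 0 ≤ φ t := by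
    intro t
    have h := hB k m hk hm g (t • f) hg (fun n hn => hf n (Finsupp.support_smul hn))
    simp only [hφ, zero_smul, add_zero]
    exact h
  have h3 : ∀ L : ℕ, 1 ≤ L → φ 1 ≤ φ 0 + C * (1 + 1 / L) := by
    intro L hL
    have hL0 : (0:ℝ) < L := by exact_mod_cast hL
    have d : ∀ j : ℕ, φ ((j + 1 : ℕ) / L) - φ ((j : ℕ) / L) ≤ 2 * (1 / (L:ℝ)) ^ 2 * C * (j + 1) := by
      intro j
      induction j with
      | zero =>
        have a := h1 0 (1 / L)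
        have b := h2 (0 - 1 / L)
        simp only [zero_add, Nat.cast_one, Nat.cast_zero, zero_div] at a b ⊢
        linarith
      | succ j ih =>
        have a := h1 ((j + 1 : ℕ) / L) (1 / L)
        have e1 : (((j + 1 : ℕ) : ℝ) / L + 1 / L) = ((j + 1 + 1 : ℕ) : ℝ) / L := by
          push_cast; ring
        have e2 : (((j + 1 : ℕ) : ℝ) / L - 1 / L) = ((j : ℕ) : ℝ) / L := by
          push_cast; ring
        rw [e1, e2] at a
        push_cast at a ih ⊢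
        nlinarith [a, ih]
    have s : ∀ j : ℕ, φ ((j : ℕ) / L) - φ 0 ≤ (1 / (L:ℝ)) ^ 2 * C * (j * (j + 1)) := by
      intro j
      induction j with
      | zero => simp
      | succ j ih =>
        have := d j
        push_cast at this ih ⊢
        nlinarith [this, ih]
    have := s L
    rw [div_self (ne_of_gt hL0)] at this
    have e : (1 / (L:ℝ)) ^ 2 * C * (L * (L + 1)) = C * (1 + 1 / L) := by
      field_simp
    linarith
  have h4 : φ 1 ≤ φ 0 + C := by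
    apply le_of_forall_pos_le_add
    intro ε hε
    obtain ⟨L, hL⟩ := exists_nat_gt (max 1 (C / ε))
    have hL1 : (1:ℝ) < L := lt_of_le_of_lt (le_max_left _ _) hL
    have hL2 : C / ε < L := lt_of_le_of_lt (le_max_right _ _) hL
    have hLn : 1 ≤ L := by
      have : (1:ℝ) < (L:ℝ) := hL1
      exact_mod_cast this.le
    have := h3 L hLn
    have hL0 : (0:ℝ) < L := by linarith
    have h5 : C * (1 / L) ≤ ε := by
      rw [div_lt_iff₀ hε] at hL2
      rw [mul_one_div, div_le_iff₀ hL0]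
      linarith
    nlinarith
  simpa [hφ] using h4

/-- `f` is a nonnegative weight on `A` of total mass `ρ` with `‖f‖² ≤ ρ`. -/
def G (k : ℕ) (A : Finset ℤ) (ρ : ℝ) : Prop :=
  ∃ f : ℤ →₀ ℝ, (∀ n, 0 ≤ f n) ∧ f.support ⊆ A ∧ ∑ n ∈ A, f n = ρ ∧ N k f ≤ ρ

/-- the functional `R` -/
noncomputable def R (k : ℕ) (A : Finset ℤ) : ℝ := sSup {ρ | G k A ρ}

theorem G_zero (k : ℕ) (hk : 1 ≤ k) (A : Finset ℤ) : G k A 0 :=
  ⟨0, fun _ => le_rfl, by simp, by simp, (N_zero k hk).le⟩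

theorem G_one (k : ℕ) {A : Finset ℤ} {a : ℤ} (ha : a ∈ A) : G k A 1 := by
  classical
  refine ⟨Finsupp.single a 1, fun n => ?_, ?_, ?_, (N_single k a).le⟩
  · rw [Finsupp.single_apply]; split_ifs <;> norm_num
  · intro n hn
    rw [Finsupp.mem_support_iff, Finsupp.single_apply] at hn
    by_cases h : a = n
    · exact h ▸ ha
    · simp [h] at hn
  · simp [Finsupp.single_apply, ha]

theorem G_nonneg {k : ℕ} {A : Finset ℤ} {ρ : ℝ} (h : G k A ρ) : 0 ≤ ρ := by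
  obtain ⟨f, h1, _, h3, _⟩ := h
  rw [← h3]
  exact Finset.sum_nonneg fun n _ => h1 n

theorem G_sub {k : ℕ} {A' A : Finset ℤ} (h : A' ⊆ A) {ρ : ℝ} (hG : G k A' ρ) : G k A ρ := by
  obtain ⟨f, h1, h2, h3, h4⟩ := hG
  refine ⟨f, h1, h2.trans h, ?_, h4⟩
  rw [← h3]
  exact (Finset.sum_subset h fun n _ hn => by
    by_contra hne
    exact hn (h2 (Finsupp.mem_support_iff.2 hne))).symm

theorem G_comb (hA : TaskA) (hB : TaskB) {k m : ℕ} (hk : 1 ≤ k) (hm : 1 ≤ m)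
    {A A₀ A₁ : Finset ℤ} (h0 : A₀ ⊆ A) (h1 : A₁ ⊆ A)
    (hm0 : ∀ n ∈ A₀, ¬ (m : ℤ) ∣ n) (hm1 : ∀ n ∈ A₁, (m : ℤ) ∣ n) {ρ σ : ℝ}
    (hρ : G k A₁ ρ) (hσ : G k A₀ σ) : G k A (ρ + σ / (2 * k - 1)) := by
  obtain ⟨g, g1, g2, g3, g4⟩ := G_sub h1 hρ
  obtain ⟨f, f1, f2, f3, f4⟩ := G_sub h0 hσ
  obtain ⟨g, g1, g2', g3', g4⟩ := hρ
  obtain ⟨f, f1, f2', f3', f4⟩ := hσ
  have hk1 : (1:ℝ) ≤ k := by exact_mod_cast hk
  have hc : (0:ℝ) < 2 * k - 1 := by linarith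
  have sg : ∑ n ∈ A, g n = ρ := by
    rw [← g3']
    exact (Finset.sum_subset h1 fun n _ hn => by
      by_contra hne
      exact hn (g2' (Finsupp.mem_support_iff.2 hne))).symm
  have sf : ∑ n ∈ A, f n = σ := by
    rw [← f3']
    exact (Finset.sum_subset h0 fun n _ hn => by
      by_contra hne
      exact hn (f2' (Finsupp.mem_support_iff.2 hne))).symm
  refine ⟨g + (1 / (2 * (k:ℝ) - 1)) • f, fun n => ?_, ?_, ?_, ?_⟩
  · rw [Finsupp.add_apply, Finsupp.smul_apply, smul_eq_mul]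
    have := g1 n
    have := f1 n
    positivity
  · intro n hn
    rcases Finset.mem_union.1 (Finsupp.support_add hn) with h | h
    · exact h1 (g2' h)
    · exact h0 (f2' (Finsupp.support_smul h))
  · simp only [Finsupp.add_apply, Finsupp.smul_apply, smul_eq_mul]
    rw [Finset.sum_add_distrib, ← Finset.mul_sum, sg, sf]
    ring
  · have := smooth hA hB k m hk hm g ((1 / (2 * (k:ℝ) - 1)) • f) (fun n hn => hm1 n (g2' hn))
      (fun n hn => hm0 n (f2' (Finsupp.support_smul hn)))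
    rw [N_smul k hk] at this
    have e : (2 * (k:ℝ) - 1) * ((1 / (2 * (k:ℝ) - 1)) ^ 2 * N k f) = N k f / (2 * k - 1) := by
      field_simp
    rw [e] at this
    have h5 : N k f / (2 * k - 1) ≤ σ / (2 * k - 1) := by gcongr
    linarith

theorem G_pow (hC : TaskC) {k : ℕ} (hk : 1 ≤ k) {A : Finset ℤ} {ρ : ℝ} (h : G k A ρ) :
    ρ ^ k ≤ ((sumset k A).card : ℝ) := by
  have h0 := G_nonneg h
  obtain ⟨f, f1, f2, f3, f4⟩ := h
  rcases h0.eq_or_lt with h00 | hpos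
  · rw [← h00, zero_pow (by omega)]
    positivity
  · have := hC k hk A f f2 f1
    rw [f3, ← N_pow k hk f] at this
    have h2 : N k f ^ k ≤ ρ ^ k := pow_le_pow_left₀ (N_nonneg k f) f4 k
    have h3 : ρ ^ (2 * k) ≤ ((sumset k A).card : ℝ) * ρ ^ k :=
      this.trans (mul_le_mul_of_nonneg_left h2 (by positivity))
    have h4 : 0 < ρ ^ k := pow_pos hpos k
    rw [two_mul, pow_add] at h3
    exact le_of_mul_le_mul_right h3 h4

theorem G_le (hC : TaskC) {k : ℕ} (hk : 1 ≤ k) {A : Finset ℤ} {ρ : ℝ} (h : G k A ρ) :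
    ρ ≤ ((sumset k A).card : ℝ) ^ ((1:ℝ) / k) := by
  have h1 := G_pow hC hk h
  have h0 := G_nonneg h
  have h2 : (ρ ^ k) ^ ((1:ℝ) / k) ≤ ((sumset k A).card : ℝ) ^ ((1:ℝ) / k) :=
    Real.rpow_le_rpow (by positivity) h1 (by positivity)
  rw [← Real.rpow_natCast, ← Real.rpow_mul h0] at h2
  have : (k:ℝ) * ((1:ℝ) / k) = 1 := by field_simp
  rwa [this, Real.rpow_one] at h2

theorem bdd (hC : TaskC) {k : ℕ} (hk : 1 ≤ k) (A : Finset ℤ) : BddAbove {ρ | G k A ρ} :=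
  ⟨_, fun _ hρ => G_le hC hk hρ⟩

theorem one_le_R (hC : TaskC) {k : ℕ} (hk : 1 ≤ k) {A : Finset ℤ} (hA : A.Nonempty) :
    1 ≤ R k A := by
  obtain ⟨a, ha⟩ := hA
  exact le_csSup (bdd hC hk A) (G_one k ha)

theorem R_sub (hC : TaskC) {k : ℕ} (hk : 1 ≤ k) {A' A : Finset ℤ} (h : A' ⊆ A) :
    R k A' ≤ R k A :=
  csSup_le_csSup (bdd hC hk A) ⟨0, G_zero k hk A'⟩ fun _ hρ => G_sub h hρ

theorem R_comb (hA : TaskA) (hB : TaskB) (hC : TaskC) {k m : ℕ} (hk : 1 ≤ k) (hm : 1 ≤ m)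
    {A A₀ A₁ : Finset ℤ} (h0 : A₀ ⊆ A) (h1 : A₁ ⊆ A)
    (hm0 : ∀ n ∈ A₀, ¬ (m : ℤ) ∣ n) (hm1 : ∀ n ∈ A₁, (m : ℤ) ∣ n) :
    R k A₁ + R k A₀ / (2 * k - 1) ≤ R k A := by
  have hk1 : (1:ℝ) ≤ k := by exact_mod_cast hk
  have hc : (0:ℝ) < 2 * k - 1 := by linarith
  have key : ∀ σ, G k A₀ σ → R k A₁ ≤ R k A - σ / (2 * k - 1) := by
    intro σ hσ
    apply csSup_le ⟨0, G_zero k hk A₁⟩
    intro ρ hρ
    have := le_csSup (bdd hC hk A) (G_comb hA hB hk hm h0 h1 hm0 hm1 hρ hσ)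
    change ρ + σ / (2 * k - 1) ≤ R k A at this
    linarith
  have h2 : R k A₀ ≤ (R k A - R k A₁) * (2 * k - 1) := by
    apply csSup_le ⟨0, G_zero k hk A₀⟩
    intro σ hσ
    have := key σ hσ
    have h3 : σ / (2 * k - 1) ≤ R k A - R k A₁ := by linarith
    rwa [div_le_iff₀ hc] at h3
  have h3 : R k A₀ / (2 * k - 1) ≤ R k A - R k A₁ := by
    rw [div_le_iff₀ hc]; exact h2
  linarith

theorem R_pow (hC : TaskC) {k : ℕ} (hk : 1 ≤ k) {A : Finset ℤ} (hA : A.Nonempty) :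
    R k A ^ k ≤ ((sumset k A).card : ℝ) := by
  have h1 : R k A ≤ ((sumset k A).card : ℝ) ^ ((1:ℝ) / k) :=
    csSup_le ⟨0, G_zero k hk A⟩ fun ρ hρ => G_le hC hk hρ
  have h0 : 0 ≤ R k A := le_trans zero_le_one (one_le_R hC hk hA)
  have h2 := pow_le_pow_left₀ h0 h1 k
  rw [← Real.rpow_natCast (((sumset k A).card : ℝ) ^ ((1:ℝ) / k)), ← Real.rpow_mul (by positivity)] at h2
  have : ((1:ℝ) / k) * k = 1 := by field_simp
  rwa [this, Real.rpow_one] at h2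

end Pool.Agent.H384R3.SPk
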