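import Pool.Agent.H384R3.SPk.Defs4
import Pool.Agent.H224R3.SPk.TaskI

set_option autoImplicit false

namespace Pool.Agent.H384R3.SPk

open Finset MeasureTheory Pool.Agent.H384R3.SPk.C Pool.Agent.H224R3.SPk
open scoped ENNReal

/-- Hoelder's inequality for `n ≤ 2k` functions on the unit interval. -/
theorem holder2 (k n : ℕ) (hk : 1 ≤ k) (hn : n ≤ 2 * k) (g : Fin n → ℝ → ℝ)
    (hg : ∀ i, Continuous (g i)) (hg0 : ∀ i x, 0 ≤ g i x) :
    ∫ x in (0:ℝ)..1, ∏ i, g i x ≤
      ∏ i, (∫ x in (0:ℝ)..1, g i x ^ (2 * k)) ^ ((1:ℝ) / (2 * k)) := by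
  have hk' : (0 : ℝ) < 2 * k := by
    have : (0:ℝ) < k := by exact_mod_cast hk
    linarith
  have hnk : (n : ℝ) ≤ 2 * k := by exact_mod_cast hn
  have hci : ∀ i, Continuous (fun x => g i x ^ (2 * k)) := fun i => (hg i).pow _
  have hcp : Continuous (fun x => ∏ i, g i x) := continuous_finsetProd _ fun i _ => hg i
  have hint : ∀ h : ℝ → ℝ, Continuous h → Integrable h (volume.restrict (Set.Ioc 0 1)) :=
    fun h hh => (hh.intervalIntegrable 0 1).1
  rw [intervalIntegral.integral_of_le zero_le_one]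
  simp only [intervalIntegral.integral_of_le zero_le_one]
  have hM0 : ∀ i, 0 ≤ ∫ x in Set.Ioc (0:ℝ) 1, g i x ^ (2 * k) := fun i =>
    integral_nonneg fun x => pow_nonneg (hg0 i x) _
  have hP0 : 0 ≤ ∏ i, (∫ x in Set.Ioc (0:ℝ) 1, g i x ^ (2 * k)) ^ ((1:ℝ) / (2 * k)) :=
    Finset.prod_nonneg fun i _ => Real.rpow_nonneg (hM0 i) _
  rw [← ENNReal.ofReal_le_ofReal_iff hP0]
  rw [ofReal_integral_eq_lintegral_ofReal (hint _ hcp)
    (Filter.Eventually.of_forall fun x => Finset.prod_nonneg fun i _ => hg0 i x)]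
  rw [ENNReal.ofReal_prod_of_nonneg (fun i _ => Real.rpow_nonneg (hM0 i) _)]
  have h3 := ENNReal.lintegral_prod_norm_pow_le (μ := volume.restrict (Set.Ioc (0:ℝ) 1))
    (univ : Finset (Option (Fin n)))
    (f := fun o x => o.elim 1 fun i => ENNReal.ofReal (g i x ^ (2 * k)))
    (fun o _ => by
      cases o with
      | none => exact aemeasurable_const
      | some i => exact (hci i).measurable.ennreal_ofReal.aemeasurable)
    (p := fun o => o.elim (1 - (n : ℝ) / (2 * k)) fun _ => (1:ℝ) / (2 * k))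
    (by
      rw [Fintype.sum_option]
      simp only [Option.elim_none, Option.elim_some]
      rw [Finset.sum_const, Finset.card_univ, Fintype.card_fin, nsmul_eq_mul]
      ring)
    (fun o _ => by
      cases o with
      | none =>
        simp only [Option.elim_none]
        rw [sub_nonneg, div_le_one hk']
        exact hnk
      | some i => simp only [Option.elim_some]; positivity)
  simp only [Fintype.prod_option, Option.elim_none, Option.elim_some, ENNReal.one_rpow, one_mul,
    lintegral_one, Measure.restrict_apply_univ, Real.volume_Ioc, sub_zero,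
    ENNReal.ofReal_one] at h3
  calc ∫⁻ x in Set.Ioc (0:ℝ) 1, ENNReal.ofReal (∏ i, g i x)
      = ∫⁻ x in Set.Ioc (0:ℝ) 1, ∏ i, ENNReal.ofReal (g i x ^ (2 * k)) ^ ((1:ℝ) / (2 * k)) := by
        refine lintegral_congr fun x => ?_
        rw [ENNReal.ofReal_prod_of_nonneg (fun i _ => hg0 i x)]
        refine Finset.prod_congr rfl fun i _ => ?_
        rw [ENNReal.ofReal_rpow_of_nonneg (pow_nonneg (hg0 i x) _) (by positivity)]
        congr 1
        rw [← Real.rpow_natCast, ← Real.rpow_mul (hg0 i x)]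
        push_cast
        rw [mul_one_div_cancel hk'.ne', Real.rpow_one]
    _ ≤ _ := h3
    _ = _ := by
        refine Finset.prod_congr rfl fun i _ => ?_
        rw [← ENNReal.ofReal_rpow_of_nonneg (hM0 i) (by positivity),
          ofReal_integral_eq_lintegral_ofReal (hint _ (hci i))
          (Filter.Eventually.of_forall fun x => pow_nonneg (hg0 i x) _)]

theorem ind_apply (A : Finset ℤ) (n : ℤ) : ind A n = if n ∈ A then 1 else 0 := by
  classical
  unfold ind
  rw [Finsupp.finsetSum_apply]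
  simp [Finsupp.single_apply]

theorem ind_support (A : Finset ℤ) : (ind A).support ⊆ A := by
  intro n hn
  rw [Finsupp.mem_support_iff, ind_apply] at hn
  by_contra h
  simp [h] at hn

theorem F_ind (A : Finset ℤ) (x : ℝ) : F (ind A) x = ∑ n ∈ A, e n x := by
  rw [F_eq (ind A) A (ind_support A)]
  refine Finset.sum_congr rfl fun n hn => ?_
  rw [ind_apply, if_pos hn]
  simp

/-- number of solutions of a linear equation in at most `2k` variables. -/
theorem lin_count (k n : ℕ) (hk : 1 ≤ k) (hn : n ≤ 2 * k) (c : Fin n → ℤ) (hc : ∀ i, c i ≠ 0)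
    (b : ℤ) (A : Fin n → Finset ℤ) :
    ((((Fintype.piFinset A).filter fun x => ∑ i, c i * x i = b).card : ℝ)) ^ 2 ≤
      ∏ i, N k (ind (A i)) := by
  classical
  set T := Fintype.piFinset A with hT
  have hk' : (0 : ℝ) < k := by exact_mod_cast hk
  have h1 : ∀ x : ℝ, (∏ i, F (ind (A i)) ((c i : ℝ) * x)) * e (-b) x =
      ∑ a ∈ T, e (∑ i, c i * a i - b) x := by
    intro x
    have h2 := Finset.prod_univ_sum A (fun i n => e (c i * n) x)
    have h3 : ∏ i, F (ind (A i)) ((c i : ℝ) * x) = ∏ i, ∑ n ∈ A i, e (c i * n) x := by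
      refine Finset.prod_congr rfl fun i _ => ?_
      rw [F_ind]
      refine Finset.sum_congr rfl fun n _ => ?_
      rw [e_mul]
    rw [h3, h2, Finset.sum_mul]
    refine Finset.sum_congr rfl fun a _ => ?_
    rw [← e_sum, ← e_add, sub_eq_add_neg]
  have h4 : ∫ x in (0:ℝ)..1, (∏ i, F (ind (A i)) ((c i : ℝ) * x)) * e (-b) x =
      ((T.filter fun x => ∑ i, c i * x i = b).card : ℂ) := by
    simp_rw [h1]
    rw [intervalIntegral.integral_finsetSum]
    · simp_rw [ortho]
      rw [Finset.card_filter]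
      push_cast
      refine Finset.sum_congr rfl fun a _ => ?_
      by_cases h : ∑ i, c i * a i = b
      · simp [h]
      · have : ∑ i, c i * a i - b ≠ 0 := fun h' => h (by omega)
        simp [h, this]
    · intro a _
      exact (e_cont _).intervalIntegrable _ _
  have hcont : ∀ i, Continuous fun x : ℝ => ‖F (ind (A i)) ((c i : ℝ) * x)‖ := fun i =>
    ((F_cont _).comp (continuous_const.mul continuous_id)).norm
  have h5 : ((T.filter fun x => ∑ i, c i * x i = b).card : ℝ) ≤
      ∏ i, (M k (ind (A i))) ^ ((1:ℝ) / (2 * k)) := by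
    have e1 : ((T.filter fun x => ∑ i, c i * x i = b).card : ℝ) =
        ‖∫ x in (0:ℝ)..1, (∏ i, F (ind (A i)) ((c i : ℝ) * x)) * e (-b) x‖ := by
      rw [h4, Complex.norm_natCast]
    rw [e1]
    refine (intervalIntegral.norm_integral_le_integral_norm zero_le_one).trans ?_
    have e2 : ∀ x : ℝ, ‖(∏ i, F (ind (A i)) ((c i : ℝ) * x)) * e (-b) x‖ =
        ∏ i, ‖F (ind (A i)) ((c i : ℝ) * x)‖ := by
      intro x
      have : ‖e (-b) x‖ = 1 := by
        unfold e
        have : (2 * Real.pi * Complex.I * ((-b : ℤ) : ℂ) * x : ℂ) =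
            ((2 * Real.pi * ((-b : ℤ) : ℝ) * x : ℝ) : ℂ) * Complex.I := by
          push_cast; ring
        rw [this, Complex.norm_exp_ofReal_mul_I]
      rw [norm_mul, norm_prod, this, mul_one]
    simp_rw [e2]
    refine (holder2 k n hk hn _ hcont (fun i x => norm_nonneg _)).trans (le_of_eq ?_)
    refine Finset.prod_congr rfl fun i _ => ?_
    rw [M_dil k (ind (A i)) (c i) (hc i)]
  have h6 := pow_le_pow_left₀ (Nat.cast_nonneg _) h5 2
  refine h6.trans (le_of_eq ?_)
  rw [← Finset.prod_pow]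
  refine Finset.prod_congr rfl fun i _ => ?_
  unfold N
  rw [← Real.rpow_natCast, ← Real.rpow_mul (M_nonneg k _)]
  congr 1
  push_cast
  field_simp

end Pool.Agent.H384R3.SPk
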