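import Pool.Agent.H384R3.SPk.Final
import Pool.Agent.H384R3.SPk.Defs3

set_option autoImplicit false

namespace Pool.Agent.H384R3.SPk

open Finset

theorem G_mix (hI : TaskI) {k : ℕ} (hk : 1 ≤ k) {l : Fin k → ℤ} (hl : ∀ i, l i ≠ 0)
    {A : Fin k → Finset ℤ} {ρ : Fin k → ℝ} (h : ∀ i, G k (A i) (ρ i)) :
    ∏ i, ρ i ≤ ((dilsum l A).card : ℝ) := by
  have h0 : ∀ i, 0 ≤ ρ i := fun i => G_nonneg (h i)
  have hp0 : 0 ≤ ∏ i, ρ i := Finset.prod_nonneg fun i _ => h0 i
  choose f f1 f2 f3 f4 using h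
  have := hI k hk l A f hl f2 f1
  simp only [f3] at this
  have h2 : ∏ i, N k (f i) ≤ ∏ i, ρ i :=
    Finset.prod_le_prod (fun i _ => N_nonneg k (f i)) fun i _ => f4 i
  have h3 : (∏ i, ρ i) ^ 2 ≤ ((dilsum l A).card : ℝ) * ∏ i, ρ i :=
    this.trans (mul_le_mul_of_nonneg_left h2 (by positivity))
  rcases hp0.eq_or_lt with h4 | h4
  · rw [← h4]; positivity
  · rw [sq] at h3
    exact le_of_mul_le_mul_right h3 h4

theorem R_mix (hI : TaskI) {k : ℕ} (hk : 1 ≤ k) {l : Fin k → ℤ} (hl : ∀ i, l i ≠ 0)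
    {A : Fin k → Finset ℤ} (hA : ∀ i, (A i).Nonempty) :
    ∏ i, R k (A i) ≤ ((dilsum l A).card : ℝ) := by
  have hR : ∀ i, 1 ≤ R k (A i) := fun i => one_le_R tC hk (hA i)
  have hP : 0 < ∏ i, R k (A i) := Finset.prod_pos fun i _ => by have := hR i; linarith
  set P := ∏ i, R k (A i) with hPdef
  apply le_of_forall_pos_le_add
  intro ε hε
  have hk0 : (0:ℝ) < k := by exact_mod_cast hk
  set δ : ℝ := min (1 / 2) (ε / (k * P)) with hδ
  have hδ0 : 0 < δ := by rw [hδ]; positivity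
  have hδ1 : δ ≤ 1 / 2 := min_le_left _ _
  have hδ2 : δ ≤ ε / (k * P) := min_le_right _ _
  have hex : ∀ i, ∃ ρ, G k (A i) ρ ∧ (1 - δ) * R k (A i) < ρ := by
    intro i
    have : (1 - δ) * R k (A i) < sSup {ρ | G k (A i) ρ} := by
      change _ < R k (A i)
      have := hR i
      nlinarith
    obtain ⟨ρ, h1, h2⟩ := exists_lt_of_lt_csSup ⟨0, G_zero k hk (A i)⟩ this
    exact ⟨ρ, h1, h2⟩
  choose ρ h1 h2 using hex
  have h3 := G_mix hI hk hl h1
  have h4 : (1 - δ) ^ k * P ≤ ∏ i, ρ i := by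
    have : (1 - δ) ^ k * P = ∏ i, ((1 - δ) * R k (A i)) := by
      rw [Finset.prod_mul_distrib, Finset.prod_const, Finset.card_univ, Fintype.card_fin]
    rw [this]
    apply Finset.prod_le_prod
    · intro i _
      have := hR i
      exact mul_nonneg (by linarith) (by linarith)
    · intro i _; exact (h2 i).le
  have h5 : 1 - k * δ ≤ (1 - δ) ^ k := by
    have := one_add_mul_le_pow (a := -δ) (by linarith) k
    have e : (1 + -δ) = 1 - δ := by ring
    rw [e] at this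
    linarith
  have h6 : k * δ * P ≤ ε := by
    have : k * P * δ ≤ k * P * (ε / (k * P)) := mul_le_mul_of_nonneg_left hδ2 (by positivity)
    have e : k * P * (ε / (k * P)) = ε := by field_simp
    linarith
  have h7 : (1 - k * δ) * P ≤ (1 - δ) ^ k * P := mul_le_mul_of_nonneg_right h5 hP.le
  nlinarith

/-- the product set of `m` copies of each of the sets `A i` -/
def prodset2 (m : ℕ) {k : ℕ} (A : Fin k → Finset ℤ) : Finset ℤ :=
  (Fintype.piFinset fun p : Fin m × Fin k => A p.2).image fun f => ∏ p, f p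

theorem prodset2_eq (m : ℕ) {k : ℕ} (A : Fin k → Finset ℤ) :
    prodset2 m A = prodset (fun j : Fin (m * k) => A (finProdFinEquiv.symm j).2) := by
  classical
  ext x
  unfold prodset2 prodset
  simp only [Finset.mem_image, Fintype.mem_piFinset]
  constructor
  · rintro ⟨f, hf, rfl⟩
    refine ⟨fun j => f (finProdFinEquiv.symm j), fun j => hf _, ?_⟩
    exact Equiv.prod_comp finProdFinEquiv.symm f
  · rintro ⟨f, hf, rfl⟩
    refine ⟨fun p => f (finProdFinEquiv p), fun p => ?_, ?_⟩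
    · have := hf (finProdFinEquiv p)
      rwa [Equiv.symm_apply_apply] at this
    · exact Equiv.prod_comp finProdFinEquiv f

/-- sums of dilates of different sets against the product set -/
theorem mix (hI : TaskI) {k m : ℕ} (hk : 2 ≤ k) (hm : 1 ≤ m) {β : ℝ}
    (h : (2 * k - 1 : ℝ) ≤ ((m * k : ℝ) - (m * k - 1) / (2 * k - 1)) ^ β)
    (l : Fin k → ℤ) (hl : ∀ i, l i ≠ 0) (A : Fin k → Finset ℤ)
    (hA : ∀ i, (A i).Nonempty) (hAp : ∀ i, ∀ a ∈ A i, 0 < a) :
    ∏ i, ((A i).card : ℝ) ^ (1 + β) ≤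
      ((dilsum l A).card : ℝ) * ((prodset2 m A).card : ℝ) ^ ((k : ℝ) * β) := by
  have hk1 : 1 ≤ k := by omega
  have hmk : 2 ≤ m * k := by nlinarith
  have hmk1 : 1 ≤ m * k := by omega
  have hm0 : (0:ℝ) < m := by exact_mod_cast hm
  have hk0 : (0:ℝ) < k := by exact_mod_cast hk1
  have h' : (2 * k - 1 : ℝ) ≤ (((m * k : ℕ) : ℝ) - (((m * k : ℕ) : ℝ) - 1) / (2 * k - 1)) ^ β := by
    push_cast; exact h
  obtain ⟨β₀, hβ₀, hle, hcrit⟩ := exists_crit hk hmk h'
  have hmR := main_R tA tB tC taskD taskE hk hmk hβ₀ hcrit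
    (fun j : Fin (m * k) => A (finProdFinEquiv.symm j).2) (fun j => hA _) (fun j => hAp _)
  have hcp : ∀ i : Fin k, (A i).card ≤ (prodset2 m A).card := by
    intro i
    rw [prodset2_eq]
    have := card_le_prodset hmk1 (fun j : Fin (m * k) => A (finProdFinEquiv.symm j).2)
      (fun j => hA _) (fun j => hAp _) (finProdFinEquiv (⟨0, hm⟩, i))
    simpa using this
  rw [← prodset2_eq] at hmR
  have hR : ∀ i, 1 ≤ R k (A i) := fun i => one_le_R tC hk1 (hA i)
  have hR0 : ∀ i, 0 < R k (A i) := fun i => by have := hR i; linarith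
  have hcard : ∀ i, (1:ℝ) ≤ (A i).card := fun i => by exact_mod_cast (hA i).card_pos
  set P : ℝ := ((prodset2 m A).card : ℝ) with hP
  have hP1 : 1 ≤ P := (hcard ⟨0, by omega⟩).trans (by rw [hP]; exact_mod_cast hcp ⟨0, by omega⟩)
  -- regroup the product
  have hg : ∀ g : Fin k → ℝ, ∏ j : Fin (m * k), g (finProdFinEquiv.symm j).2 = (∏ i, g i) ^ m := by
    intro g
    rw [Equiv.prod_comp finProdFinEquiv.symm (fun p : Fin m × Fin k => g p.2),
      Fintype.prod_prod_type]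
    simp
  have e0 := hg (fun i => (((A i).card : ℝ) ^ (1 + β₀) / R k (A i)) ^ (1 / (((m * k : ℕ) : ℝ) * β₀)))
  have e00 : ∏ i : Fin k, (((A i).card : ℝ) ^ (1 + β₀) / R k (A i)) ^ (1 / (((m * k : ℕ) : ℝ) * β₀)) =
      (∏ i : Fin k, ((A i).card : ℝ) ^ (1 + β₀) / R k (A i)) ^ (1 / (((m * k : ℕ) : ℝ) * β₀)) :=
    Real.finsetProd_rpow Finset.univ _ (fun i _ => by have := hR0 i; positivity) _
  rw [e00, ← Real.rpow_natCast,
      ← Real.rpow_mul (Finset.prod_nonneg fun i _ => by have := hR0 i; positivity)] at e0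
  have e0' : 1 / (((m * k : ℕ) : ℝ) * β₀) * m = 1 / ((k : ℝ) * β₀) := by
    push_cast
    field_simp
  rw [e0'] at e0
  rw [e0] at hmR
  have hT : 0 ≤ ∏ i, ((A i).card : ℝ) ^ (1 + β₀) / R k (A i) :=
    Finset.prod_nonneg fun i _ => by have := hR0 i; positivity
  have h2 := Real.rpow_le_rpow (Real.rpow_nonneg hT _) hmR (mul_nonneg hk0.le hβ₀.le)
  rw [← Real.rpow_mul hT] at h2
  have e1 : 1 / ((k : ℝ) * β₀) * (k * β₀) = 1 := by field_simp
  rw [e1, Real.rpow_one, Finset.prod_div_distrib,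
    div_le_iff₀ (Finset.prod_pos fun i _ => hR0 i)] at h2
  have h3 : ∏ i, ((A i).card : ℝ) ^ (β - β₀) ≤ P ^ ((k:ℝ) * (β - β₀)) := by
    calc ∏ i, ((A i).card : ℝ) ^ (β - β₀) ≤ ∏ _i : Fin k, P ^ (β - β₀) := by
          apply Finset.prod_le_prod
          · intro i _; have := hcard i; positivity
          · intro i _
            apply Real.rpow_le_rpow (by positivity) _ (by linarith)
            rw [hP]
            exact_mod_cast hcp i
      _ = _ := by
          rw [Finset.prod_const, Finset.card_univ, Fintype.card_fin, ← Real.rpow_natCast,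
            ← Real.rpow_mul (by positivity), mul_comm]
  have e2 : ∏ i, ((A i).card : ℝ) ^ (1 + β) =
      (∏ i, ((A i).card : ℝ) ^ (1 + β₀)) * ∏ i, ((A i).card : ℝ) ^ (β - β₀) := by
    rw [← Finset.prod_mul_distrib]
    refine Finset.prod_congr rfl fun i _ => ?_
    have := hcard i
    rw [← Real.rpow_add (by linarith)]
    congr 1; ring
  have e3 : P ^ ((k:ℝ) * β) = P ^ ((k:ℝ) * β₀) * P ^ ((k:ℝ) * (β - β₀)) := by
    rw [← Real.rpow_add (by linarith)]; congr 1; ring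
  have hRm := R_mix hI hk1 hl hA
  have hRpos : 0 ≤ ∏ i, R k (A i) := Finset.prod_nonneg fun i _ => (hR0 i).le
  rw [e2, e3]
  calc _ ≤ (P ^ ((k:ℝ) * β₀) * ∏ i, R k (A i)) * P ^ ((k:ℝ) * (β - β₀)) := by
        apply mul_le_mul h2 h3
        · exact Finset.prod_nonneg fun i _ => by have := hcard i; positivity
        · positivity
    _ ≤ (P ^ ((k:ℝ) * β₀) * ((dilsum l A).card : ℝ)) * P ^ ((k:ℝ) * (β - β₀)) := by
        gcongr
    _ = _ := by ring

end Pool.Agent.H384R3.SPk
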