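import Pool.Agent.H384R3.SPk.Defs4
import Pool.Agent.H384R3.SPk.TaskC

set_option autoImplicit false

namespace Pool.Agent.H384R3.SPk

open Finset

/-- the `i`-th prime -/
noncomputable def pr {r : ℕ} (i : Fin r) : ℕ := Nat.nth Nat.Prime i

theorem pr_prime {r : ℕ} (i : Fin r) : (pr i).Prime :=
  Nat.nth_mem_of_infinite Nat.infinite_setOfPred_prime i

theorem pr_inj {r : ℕ} {i j : Fin r} (h : pr i = pr j) : i = j := by
  have := Nat.nth_injective Nat.infinite_setOfPred_prime h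
  exact Fin.ext this

/-- the box -/
noncomputable def boxSet (r m : ℕ) : Finset ℤ :=
  (Fintype.piFinset fun _ : Fin r => Finset.range (m + 1)).image fun e => ((∏ i, pr i ^ e i : ℕ) : ℤ)

theorem box_inj {r : ℕ} {e f : Fin r → ℕ} (h : ∏ i, pr i ^ e i = ∏ i, pr i ^ f i) : e = f := by
  classical
  have key : ∀ (e : Fin r → ℕ) (j : Fin r), (∏ i, pr i ^ e i).factorization (pr j) = e j := by
    intro e j
    rw [Nat.factorization_prod (fun i _ => (pow_pos (pr_prime i).pos _).ne')]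
    rw [Finsupp.finsetSum_apply]
    rw [Finset.sum_eq_single j]
    · rw [(pr_prime j).factorization_pow]; simp
    · intro i _ hij
      rw [(pr_prime i).factorization_pow, Finsupp.single_apply, if_neg]
      intro h'
      exact hij (pr_inj h')
    · simp
  funext j
  rw [← key e j, h, key f j]

theorem boxSet_card (r m : ℕ) : (boxSet r m).card = (m + 1) ^ r := by
  classical
  unfold boxSet
  rw [Finset.card_image_of_injective]
  · simp
  · intro e f h
    apply box_inj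
    have h' : ((∏ i, pr i ^ e i : ℕ) : ℤ) = ((∏ i, pr i ^ f i : ℕ) : ℤ) := h
    exact_mod_cast h'

theorem boxSet_nonempty (r m : ℕ) : (boxSet r m).Nonempty := by
  rw [← Finset.card_pos, boxSet_card]
  positivity

theorem boxSet_pos (r m : ℕ) : ∀ a ∈ boxSet r m, 0 < a := by
  intro a ha
  unfold boxSet at ha
  rw [Finset.mem_image] at ha
  obtain ⟨e, _, rfl⟩ := ha
  exact_mod_cast Finset.prod_pos fun i _ => pow_pos (pr_prime i).pos _

theorem boxSet_le (r m : ℕ) : ∀ a ∈ boxSet r m, a ≤ (((∏ i : Fin r, pr i) ^ m : ℕ) : ℤ) := by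
  intro a ha
  unfold boxSet at ha
  rw [Finset.mem_image] at ha
  obtain ⟨e, he, rfl⟩ := ha
  rw [Fintype.mem_piFinset] at he
  have : ∏ i, pr i ^ e i ≤ (∏ i : Fin r, pr i) ^ m := by
    rw [← Finset.prod_pow]
    apply Finset.prod_le_prod'
    intro i _
    apply Nat.pow_le_pow_right (pr_prime i).pos
    have := Finset.mem_range.1 (he i)
    omega
  exact_mod_cast this

theorem sumset_le {k : ℕ} {A : Finset ℤ} {B : ℕ} (hk : 1 ≤ k) (h0 : ∀ a ∈ A, 0 < a)
    (h1 : ∀ a ∈ A, a ≤ (B : ℤ)) : (sumset k A).card ≤ k * B := by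
  have : sumset k A ⊆ Finset.Icc (1 : ℤ) (k * B : ℕ) := by
    intro x hx
    unfold sumset at hx
    rw [Finset.mem_image] at hx
    obtain ⟨f, hf, rfl⟩ := hx
    rw [Fintype.mem_piFinset] at hf
    rw [Finset.mem_Icc]
    have : Nonempty (Fin k) := ⟨⟨0, hk⟩⟩
    constructor
    · have : 0 < ∑ i, f i := Finset.sum_pos (fun i _ => h0 _ (hf i)) Finset.univ_nonempty
      omega
    · calc ∑ i, f i ≤ ∑ _i : Fin k, (B : ℤ) := Finset.sum_le_sum fun i _ => h1 _ (hf i)
        _ = _ := by simp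
  have h := Finset.card_le_card this
  rw [Int.card_Icc] at h
  have e : ((k * B : ℕ) + 1 - 1 : ℤ).toNat = k * B := by
    rw [add_sub_cancel_right]; exact Int.toNat_natCast _
  rwa [e] at h

/-- the box shows that the constant is optimal up to a factor `C ^ k` -/
theorem sharp (r : ℕ) : ∃ C : ℕ, 0 < C ∧ ∀ k : ℕ, 1 ≤ k → ∃ A : Finset ℤ, A.Nonempty ∧
    (∀ a ∈ A, 0 < a) ∧ (∀ a ∈ A, ∃ e : Fin r → ℕ, a = ((∏ i, pr i ^ e i : ℕ) : ℤ)) ∧
    k ^ (r * k) * (sumset k A).card ≤ C ^ k * A.card ^ k := by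
  refine ⟨2 * ∏ i : Fin r, pr i, ?_, fun k hk => ⟨boxSet r k, boxSet_nonempty r k,
    boxSet_pos r k, ?_, ?_⟩⟩
  · have : 0 < ∏ i : Fin r, pr i := Finset.prod_pos fun i _ => (pr_prime i).pos
    omega
  · intro a ha
    unfold boxSet at ha
    rw [Finset.mem_image] at ha
    obtain ⟨e, _, rfl⟩ := ha
    exact ⟨e, rfl⟩
  · have h1 := sumset_le hk (boxSet_pos r k) (boxSet_le r k)
    have h2 : k ≤ 2 ^ k := Nat.lt_two_pow_self.le
    have h3 : k ^ (r * k) ≤ (k + 1) ^ (r * k) := Nat.pow_le_pow_left (by omega) _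
    rw [boxSet_card, ← pow_mul]
    calc _ ≤ (k + 1) ^ (r * k) * (k * (∏ i : Fin r, pr i) ^ k) := Nat.mul_le_mul h3 h1
      _ ≤ (k + 1) ^ (r * k) * (2 ^ k * (∏ i : Fin r, pr i) ^ k) := by gcongr
      _ = _ := by rw [mul_pow]; ring

end Pool.Agent.H384R3.SPk
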